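import Mathlib

set_option autoImplicit false

open Polynomial Matrix

namespace Pool.Agent.Lib.MP_3a0f08_gt

variable {R : Type*} [CommRing R]

/-- Polynomials over `R` whose coefficients lie in the subring `A`. -/
noncomputable def polyRing (A : Subring R) : Subring R[X] := (Polynomial.mapRingHom A.subtype).range

lemma C_mem_polyRing {A : Subring R} {a : R} (ha : a ∈ A) : (C a : R[X]) ∈ polyRing A :=
  ⟨C ⟨a, ha⟩, by simp⟩

lemma X_mem_polyRing {A : Subring R} : (X : R[X]) ∈ polyRing A := ⟨X, by simp⟩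

/-- `t` is a root of no nonzero polynomial with coefficients in `A`. -/
def Gen (A : Subring R) (t : R) : Prop := ∀ P ∈ polyRing A, P.eval t = 0 → P = 0

lemma Gen.of_transcendental {A : Subring R} {t : R} (h : Transcendental A t) : Gen A t := by
  rintro P ⟨Q, rfl⟩ hP
  have h2 : Polynomial.aeval t Q = 0 := by
    rw [Polynomial.aeval_def]
    have e : algebraMap A R = A.subtype := rfl
    rw [e]
    simpa [Polynomial.eval_map] using hP
  have := (transcendental_iff.1 h) Q h2
  simp [this]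

/-- The matrix `M` is the value at `t` of a matrix of polynomials over `A`, of degree at most `n`,
whose leading matrix is a nonzero multiple of the rank one matrix `ξ η`. -/
def Lead (A : Subring R) (t : R) (n : ℕ) (M : Matrix (Fin 2) (Fin 2) R) (ξ η : Fin 2 → R) : Prop :=
  ∃ P : Matrix (Fin 2) (Fin 2) R[X], (∀ i j, P i j ∈ polyRing A) ∧ (∀ i j, (P i j).eval t = M i j) ∧
    (∀ i j, (P i j).natDegree ≤ n) ∧ ∃ κ : R, κ ≠ 0 ∧ ∀ i j, (P i j).coeff n = κ * ξ i * η j

lemma natDegree_aux {p q : R[X]} {c : R} {n m : ℕ} (hp : p.natDegree ≤ n) (hq : q.natDegree ≤ m) :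
    (p * C c * q).natDegree ≤ n + m := by
  refine (Polynomial.natDegree_mul_le).trans ?_
  have : (p * C c).natDegree ≤ n := (Polynomial.natDegree_mul_C_le p c).trans hp
  omega

lemma coeff_aux {p q : R[X]} {c : R} {n m : ℕ} (hp : p.natDegree ≤ n) (hq : q.natDegree ≤ m) :
    (p * C c * q).coeff (n + m) = p.coeff n * c * q.coeff m := by
  have : (p * C c).natDegree ≤ n := (Polynomial.natDegree_mul_C_le p c).trans hp
  rw [Polynomial.coeff_mul_add_eq_of_natDegree_le this hq, Polynomial.coeff_mul_C]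

lemma Lead.mul [IsDomain R] {A : Subring R} {t : R} {n m : ℕ} {M M' c : Matrix (Fin 2) (Fin 2) R}
    {ξ η ξ' η' : Fin 2 → R} (h : Lead A t n M ξ η) (h' : Lead A t m M' ξ' η')
    (hc : ∀ i j, c i j ∈ A) (hne : η ⬝ᵥ (c *ᵥ ξ') ≠ 0) : Lead A t (n + m) (M * c * M') ξ η' := by
  obtain ⟨P, hP1, hP2, hP3, κ, hκ, hP4⟩ := h
  obtain ⟨P', hP1', hP2', hP3', κ', hκ', hP4'⟩ := h'
  refine ⟨P * c.map C * P', ?_, ?_, ?_, κ * κ' * (η ⬝ᵥ (c *ᵥ ξ')), ?_, ?_⟩
  · intro i j
    simp only [Matrix.mul_apply, Matrix.map_apply]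
    refine Subring.sum_mem _ fun k _ => Subring.mul_mem _ (Subring.sum_mem _ fun l _ => ?_) (hP1' _ _)
    exact Subring.mul_mem _ (hP1 _ _) (C_mem_polyRing (hc _ _))
  · intro i j
    simp only [Matrix.mul_apply, Matrix.map_apply, Polynomial.eval_finsetSum, Polynomial.eval_mul,
      Polynomial.eval_C, hP2, hP2']
  · intro i j
    simp only [Matrix.mul_apply, Matrix.map_apply, Fin.sum_univ_two, add_mul]
    refine Polynomial.natDegree_add_le_of_degree_le (Polynomial.natDegree_add_le_of_degree_le ?_ ?_)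
      (Polynomial.natDegree_add_le_of_degree_le ?_ ?_) <;>
    exact natDegree_aux (hP3 _ _) (hP3' _ _)
  · exact mul_ne_zero (mul_ne_zero hκ hκ') hne
  · intro i j
    simp only [Matrix.mul_apply, Matrix.map_apply, Fin.sum_univ_two, add_mul, Polynomial.coeff_add,
      coeff_aux (hP3 _ _) (hP3' _ _), hP4, hP4', dotProduct, Matrix.mulVec]
    ring

/-- For positive degree, a matrix with a leading term is not defined over `A`. -/
lemma Lead.not_mem [IsDomain R] {A : Subring R} {t : R} (ht : Gen A t) {n : ℕ}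
    {M : Matrix (Fin 2) (Fin 2) R} {ξ η : Fin 2 → R} (hn : 0 < n) (hξ : ξ ≠ 0) (hη : η ≠ 0)
    (h : Lead A t n M ξ η) (hM : ∀ i j, M i j ∈ A) : False := by
  obtain ⟨P, hP1, hP2, hP3, κ, hκ, hP4⟩ := h
  obtain ⟨i, hi⟩ := Function.ne_iff.1 hξ
  obtain ⟨j, hj⟩ := Function.ne_iff.1 hη
  have h1 : P i j - C (M i j) = 0 := by
    apply ht
    · exact Subring.sub_mem _ (hP1 _ _) (C_mem_polyRing (hM _ _))
    · simp [hP2]
  have h2 := congrArg (fun Q => Polynomial.coeff Q n) h1
  simp only [Polynomial.coeff_sub, hP4, Polynomial.coeff_C, hn.ne', if_false, sub_zero,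
    Polynomial.coeff_zero] at h2
  simp only [Pi.zero_apply] at hi hj
  exact (mul_ne_zero (mul_ne_zero hκ hi) hj) h2

lemma Lead.trace_ne [IsDomain R] {A : Subring R} {t : R} (ht : Gen A t) {n : ℕ}
    {M c : Matrix (Fin 2) (Fin 2) R} {ξ η : Fin 2 → R} (hn : 0 < n)
    (h : Lead A t n M ξ η) (hc : ∀ i j, c i j ∈ A) (hne : η ⬝ᵥ (c *ᵥ ξ) ≠ 0) :
    Matrix.trace (M * c) ≠ 2 := by
  obtain ⟨P, hP1, hP2, hP3, κ, hκ, hP4⟩ := h
  intro htr
  have h1 : (P * c.map C).trace - C 2 = 0 := by
    apply ht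
    · refine Subring.sub_mem _ ?_ (C_mem_polyRing ?_)
      · simp only [Matrix.trace, Matrix.diag_apply, Matrix.mul_apply, Matrix.map_apply]
        exact Subring.sum_mem _ fun k _ => Subring.sum_mem _ fun l _ =>
          Subring.mul_mem _ (hP1 _ _) (C_mem_polyRing (hc _ _))
      · have : (2 : R) = 1 + 1 := by norm_num
        rw [this]; exact Subring.add_mem _ (Subring.one_mem _) (Subring.one_mem _)
    · simp only [Matrix.trace, Matrix.diag_apply, Matrix.mul_apply, Matrix.map_apply,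
        Polynomial.eval_sub, Polynomial.eval_finsetSum, Polynomial.eval_mul, Polynomial.eval_C, hP2]
      simp only [Matrix.trace, Matrix.diag_apply, Matrix.mul_apply] at htr
      rw [htr, sub_self]
  have h2 := congrArg (fun Q => Polynomial.coeff Q n) h1
  simp only [Matrix.trace, Matrix.diag_apply, Matrix.mul_apply, Matrix.map_apply, Fin.sum_univ_two,
    Polynomial.coeff_sub, Polynomial.coeff_add, Polynomial.coeff_mul_C, hP4, Polynomial.coeff_C,
    hn.ne', if_false, sub_zero, Polynomial.coeff_zero] at h2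
  apply mul_ne_zero hκ hne
  rw [← h2]
  simp only [dotProduct, Matrix.mulVec, Fin.sum_univ_two]
  ring

/-- A matrix of determinant one with a nonzero fixed vector has trace two. -/
lemma trace_eq_two_of_fixed [IsDomain R] {M : Matrix (Fin 2) (Fin 2) R} (hdet : M.det = 1) {v : Fin 2 → R}
    (hv : v ≠ 0) (h : M *ᵥ v = v) : M.trace = 2 := by
  have h1 : (M - 1) *ᵥ v = 0 := by rw [Matrix.sub_mulVec, h, Matrix.one_mulVec, sub_self]
  have h2 : (M - 1).det = 0 := by
    apply Matrix.exists_mulVec_eq_zero_iff.1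
    exact ⟨v, hv, h1⟩
  rw [Matrix.det_fin_two] at h2 hdet
  simp only [Matrix.sub_apply, Matrix.one_apply_eq, ne_eq, Matrix.one_apply_ne, zero_ne_one, not_false_eq_true,
    one_ne_zero, sub_zero] at h2
  rw [Matrix.trace_fin_two]
  linear_combination hdet - h2

end Pool.Agent.Lib.MP_3a0f08_gt
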