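import Pool.Agent.Lib.MP_3a0f08_gt.Letters

set_option autoImplicit false

open Cardinal

namespace Pool.Agent.Lib.MP_3a0f08_gt

lemma card_closure_le {R : Type} [CommRing R] (s : Set R) :
    #(Subring.closure s) ≤ max #s ℵ₀ := by
  have h1 : Subring.closure s ≤ (Algebra.adjoin ℤ s).toSubring := by
    rw [Subring.closure_le]
    exact Algebra.subset_adjoin
  have h2 : #(Subring.closure s) ≤ #(Algebra.adjoin ℤ s) := by
    exact Cardinal.mk_le_mk_of_subset h1
  refine h2.trans ((Algebra.cardinalMk_adjoin_le ℤ s).trans ?_)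
  refine max_le (max_le ?_ (le_max_left _ _)) (le_max_right _ _)
  rw [Cardinal.mk_int]
  exact le_max_right _ _

lemma exists_gen {R : Type} [CommRing R] [IsDomain R] (A : Subring R) (hA : #A < #R) (hR : ℵ₀ < #R)
    (S : Set R) (hS : #S = #R) : ∃ s ∈ S, Gen A s := by
  by_contra hcon
  push Not at hcon
  have h1 : S ⊆ {x : R | IsAlgebraic A x} := by
    intro s hs
    by_contra hc
    exact hcon s hs (Gen.of_transcendental hc)
  have h2 : #S ≤ #{x : R // IsAlgebraic A x} := Cardinal.mk_le_mk_of_subset h1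
  have h3 : #{x : R // IsAlgebraic A x} ≤ max #A ℵ₀ := by
    have := Algebraic.cardinalMk_lift_le_max A R
    simpa using this
  have h4 := h2.trans h3
  rw [hS] at h4
  exact absurd h4 (not_le.2 (max_lt hA hR))

end Pool.Agent.Lib.MP_3a0f08_gt
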