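import Pool.Agent.Lib.MP_3a0f08_gt.Letters

set_option autoImplicit false

open Matrix

namespace Pool.Agent.Lib.MP_3a0f08_gt

/-- A homeomorphism of `Ω` together with matrices describing its action on the vector part. -/
@[ext]
structure Coc (R : Type*) [CommRing R] {Ω : Type*} [TopologicalSpace Ω] (vec : Ω → Fin 2 → R) where
  e : Ω ≃ₜ Ω
  ψ : Ω → SL R
  compat : ∀ p, vec (e p) = (ψ p).1 *ᵥ vec p

variable {R : Type*} [CommRing R] {Ω : Type*} [TopologicalSpace Ω] {vec : Ω → Fin 2 → R}

namespace Coc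

instance : Mul (Coc R vec) where
  mul g g' :=
    { e := g'.e.trans g.e
      ψ := fun p => g.ψ (g'.e p) * g'.ψ p
      compat := fun p => by
        simp only [Homeomorph.trans_apply, g.compat, g'.compat, Matrix.SpecialLinearGroup.coe_mul,
          Matrix.mulVec_mulVec] }

instance : One (Coc R vec) where
  one := { e := Homeomorph.refl Ω, ψ := fun _ => 1, compat := fun p => by simp }

instance : Inv (Coc R vec) where
  inv g :=
    { e := g.e.symm
      ψ := fun p => (g.ψ (g.e.symm p))⁻¹
      compat := fun p => by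
        have h := g.compat (g.e.symm p)
        rw [Homeomorph.apply_symm_apply] at h
        rw [h, Matrix.mulVec_mulVec, ← Matrix.SpecialLinearGroup.coe_mul, inv_mul_cancel,
          Matrix.SpecialLinearGroup.coe_one, Matrix.one_mulVec] }

@[simp] lemma mul_e (g g' : Coc R vec) (p : Ω) : (g * g').e p = g.e (g'.e p) := rfl
@[simp] lemma mul_ψ (g g' : Coc R vec) (p : Ω) : (g * g').ψ p = g.ψ (g'.e p) * g'.ψ p := rfl
@[simp] lemma one_e (p : Ω) : (1 : Coc R vec).e p = p := rfl
@[simp] lemma one_ψ (p : Ω) : (1 : Coc R vec).ψ p = 1 := rfl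
@[simp] lemma inv_e (g : Coc R vec) (p : Ω) : (g⁻¹).e p = g.e.symm p := rfl
@[simp] lemma inv_ψ (g : Coc R vec) (p : Ω) : (g⁻¹).ψ p = (g.ψ (g.e.symm p))⁻¹ := rfl

instance : Group (Coc R vec) :=
  Group.ofLeftAxioms
    (fun a b c => by
      ext p
      · rfl
      · simp only [mul_ψ, mul_e, mul_assoc])
    (fun a => by
      ext p
      · rfl
      · simp)
    (fun a => by
      ext p
      · simp
      · simp)

end Coc

open Coc

/-- `h` or its inverse. -/
def hp (h : Coc R vec) (e : Bool) : Coc R vec := if e then h else h⁻¹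

/-- Source of the `h`-edge which is traversed (in direction `e`) starting from `q`. -/
def src (h : Coc R vec) (e : Bool) (q : Ω) : Ω := if e then q else h.e.symm q

/-- Source of the `h`-edge which is traversed (in direction `e`) ending at `q`. -/
def srcEnd (h : Coc R vec) (e : Bool) (q : Ω) : Ω := if e then h.e.symm q else q

/-- Starting point of the edge with source `a` traversed in direction `e`. -/
def st (h : Coc R vec) (e : Bool) (a : Ω) : Ω := if e then a else h.e a

/-- End point of the edge with source `a` traversed in direction `e`. -/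
def en (h : Coc R vec) (e : Bool) (a : Ω) : Ω := if e then h.e a else a

lemma st_src (h : Coc R vec) (e : Bool) (q : Ω) : st h e (src h e q) = q := by
  cases e <;> simp [st, src]

lemma en_srcEnd (h : Coc R vec) (e : Bool) (q : Ω) : en h e (srcEnd h e q) = q := by
  cases e <;> simp [en, srcEnd]

lemma srcEnd_hp (h : Coc R vec) (e : Bool) (q : Ω) : srcEnd h e ((hp h e).e q) = src h e q := by
  cases e <;> simp [srcEnd, src, hp]

lemma hp_not_mul (h : Coc R vec) (e : Bool) : hp h (!e) * hp h e = 1 := by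
  cases e <;> simp [hp]

/-- Words beginning and ending with a letter `h` or its inverse, with no cancellation. -/
inductive Core (H : Subgroup (Coc R vec)) (h : Coc R vec) : ℕ → Bool → Bool → Coc R vec → Prop
  | single (e : Bool) : Core H h 1 e e (hp h e)
  | cons (e e' f : Bool) (n : ℕ) (g w : Coc R vec) (hg : g ∈ H) (hne : e ≠ e' → g ≠ 1)
      (hw : Core H h n e' f w) : Core H h (n + 1) e f (hp h e * g * w)

lemma Core.pos {H : Subgroup (Coc R vec)} {h : Coc R vec} {n : ℕ} {e f : Bool} {w : Coc R vec}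
    (hw : Core H h n e f w) : 0 < n := by
  cases hw <;> omega

/-- Decomposition of a core word at its right end. -/
lemma Core.snoc {H : Subgroup (Coc R vec)} {h : Coc R vec} {n : ℕ} {e f : Bool} {w : Coc R vec}
    (hw : Core H h n e f w) : (n = 1 ∧ e = f ∧ w = hp h f) ∨
      ∃ (m : ℕ) (f' : Bool) (w' g : Coc R vec), n = m + 1 ∧ Core H h m e f' w' ∧ g ∈ H ∧ (f' ≠ f → g ≠ 1) ∧
        w = w' * g * hp h f := by
  induction hw with
  | single e => left; exact ⟨rfl, rfl, rfl⟩
  | cons e e' f n g w hg hne hw ih =>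
    right
    rcases ih with ⟨rfl, rfl, rfl⟩ | ⟨m, f', w', g', rfl, hw', hg', hne', rfl⟩
    · exact ⟨1, e, hp h e, g, rfl, Core.single e, hg, hne, rfl⟩
    · refine ⟨m + 1, f', hp h e * g * w', g', rfl, Core.cons e e' f' m g w' hg hne hw', hg', hne', ?_⟩
      simp only [mul_assoc]

/-- The standing assumptions of the dynamical argument. -/
structure Data (A : Subring R) (t : R) (H : Subgroup (Coc R vec)) (h : Coc R vec)
    (ξ η : Bool → Ω → Fin 2 → R) : Prop where
  free : ∀ g ∈ H, ∀ p, g.e p = p → g = 1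
  nonsc : ∀ g ∈ H, g ≠ 1 → ∀ p, g.ψ p ≠ 1 ∧ g.ψ p ≠ -1
  ent : ∀ g ∈ H, ∀ p, EntriesIn A (g.ψ p)
  gen : Gen A t
  vecne : ∀ p, vec p ≠ 0
  letter : ∀ e q, Lead A t 1 ((hp h e).ψ q).1 (ξ e (src h e q)) (η e (src h e q))
  ξne : ∀ e a, ξ e a ≠ 0
  ηne : ∀ e a, η e a ≠ 0
  adj : ∀ e e' a a' g, g ∈ H → st h e a = g.e (en h e' a') → (e ≠ e' → g ≠ 1) →
    η e a ⬝ᵥ ((g.ψ (en h e' a')).1 *ᵥ ξ e' a') ≠ 0

section main

variable [IsDomain R] {A : Subring R} {t : R} {H : Subgroup (Coc R vec)} {h : Coc R vec}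
  {ξ η : Bool → Ω → Fin 2 → R}

lemma Data.lead (D : Data A t H h ξ η) {n : ℕ} {e f : Bool} {w : Coc R vec}
    (hw : Core H h n e f w) : ∀ p, Lead A t n (w.ψ p).1 (ξ e (srcEnd h e (w.e p))) (η f (src h f p)) := by
  induction hw with
  | single e =>
    intro p
    rw [srcEnd_hp]
    exact D.letter e p
  | cons e e' f n g w hg hne hw ih =>
    intro p
    have h1 := D.letter e (g.e (w.e p))
    have h2 := ih p
    have h3 : (hp h e * g * w).ψ p = (hp h e).ψ (g.e (w.e p)) * g.ψ (w.e p) * w.ψ p := by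
      simp only [mul_ψ, mul_e]
    have h4 : (hp h e * g * w).e p = (hp h e).e (g.e (w.e p)) := rfl
    rw [h3, h4, srcEnd_hp, Nat.add_comm n 1]
    have h5 := Lead.mul h1 h2 (D.ent g hg (w.e p)) ?_
    · rw [Matrix.SpecialLinearGroup.coe_mul, Matrix.SpecialLinearGroup.coe_mul]
      exact h5
    · have h6 := D.adj e e' (src h e (g.e (w.e p))) (srcEnd h e' (w.e p)) g hg
        (by rw [st_src, en_srcEnd]) hne
      rwa [en_srcEnd] at h6

/-- No nontrivial cyclically reduced word fixes a point. -/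
lemma Data.core_free (D : Data A t H h ξ η) : ∀ (n : ℕ) {e f : Bool} {w g : Coc R vec},
    Core H h n e f w → g ∈ H → ∀ p, (w * g).e p ≠ p := by
  intro n
  induction n using Nat.strong_induction_on with
  | _ n ih =>
  intro e f w g hw hg p hp'
  by_cases hc : f ≠ e → g ≠ 1
  · -- cyclically reduced
    have h1 := D.lead hw (g.e p)
    have h2 : w.e (g.e p) = p := hp'
    rw [h2] at h1
    have h3 := D.adj f e (src h f (g.e p)) (srcEnd h e p) g hg (by rw [st_src, en_srcEnd]) hc
    rw [en_srcEnd] at h3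
    have h4 := Lead.trace_ne D.gen hw.pos h1 (D.ent g hg p) h3
    apply h4
    have h5 : (w.ψ (g.e p)).1 * (g.ψ p).1 = ((w * g).ψ p).1 := by
      rw [mul_ψ, Matrix.SpecialLinearGroup.coe_mul]
    rw [h5]
    refine trace_eq_two_of_fixed ((w * g).ψ p).2 (D.vecne p) ?_
    have h6 := (w * g).compat p
    rw [hp'] at h6
    exact h6.symm
  · push Not at hc
    obtain ⟨hfe, rfl⟩ := hc
    rw [mul_one] at hp'
    cases hw with
    | single => exact hfe rfl
    | cons _ e' _ m g₁ w' hg₁ hne hw' =>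
      have hef : f = !e := by cases e <;> cases f <;> simp_all
      subst hef
      rcases hw'.snoc with ⟨rfl, rfl, rfl⟩ | ⟨m', f', w'', g₂, rfl, hw'', hg₂, hne₂, rfl⟩
      · -- w = h^e g₁ h^{-e}
        have h1 : g₁.e ((hp h (!e)).e p) = (hp h (!e)).e p := by
          have h2 := congrArg (fun q => (hp h (!e)).e q) hp'
          simp only [← mul_e] at h2
          have h3 : hp h (!e) * (hp h e * g₁ * hp h (!e)) = g₁ * hp h (!e) := by
            rw [← mul_assoc, ← mul_assoc, hp_not_mul, one_mul]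
          rw [h3] at h2
          exact h2
        exact hne (by cases e <;> simp) (D.free g₁ hg₁ _ h1)
      · have h1 : (w'' * (g₂ * g₁)).e (g₁⁻¹.e ((hp h (!e)).e p)) = g₁⁻¹.e ((hp h (!e)).e p) := by
          have h2 := congrArg (fun q => (g₁⁻¹ * hp h (!e)).e q) hp'
          simp only [← mul_e] at h2
          have h3 : g₁⁻¹ * hp h (!e) * (hp h e * g₁ * (w'' * g₂ * hp h (!e))) =
              w'' * (g₂ * g₁) * (g₁⁻¹ * hp h (!e)) := by
            have : hp h (!e) * (hp h e * g₁ * (w'' * g₂ * hp h (!e))) = g₁ * (w'' * g₂ * hp h (!e)) := by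
              rw [mul_assoc (hp h e), ← mul_assoc (hp h (!e)), hp_not_mul, one_mul]
            rw [mul_assoc, this]
            group
          rw [h3] at h2
          exact h2
        exact ih m' (by omega) hw'' (H.mul_mem hg₂ hg₁) _ h1

/-- Every element of the group generated by `H` and `h` is in `H` or reduces to a core word. -/
lemma mem_closure_cases (H : Subgroup (Coc R vec)) (h : Coc R vec) {x : Coc R vec}
    (hx : x ∈ Subgroup.closure ((H : Set (Coc R vec)) ∪ {h})) :
    x ∈ H ∨ ∃ (n : ℕ) (e f : Bool) (w g g' : Coc R vec), Core H h n e f w ∧ g ∈ H ∧ g' ∈ H ∧ x = g * w * g' := by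
  have key : ∀ (e : Bool) (x : Coc R vec),
      (x ∈ H ∨ ∃ (n : ℕ) (e f : Bool) (w g g' : Coc R vec), Core H h n e f w ∧ g ∈ H ∧ g' ∈ H ∧ x = g * w * g') →
      (hp h e * x ∈ H ∨ ∃ (n : ℕ) (e' f : Bool) (w g g' : Coc R vec), Core H h n e' f w ∧ g ∈ H ∧ g' ∈ H ∧
        hp h e * x = g * w * g') := by
    rintro e x (hx | ⟨n, e', f, w, g, g', hw, hg, hg', rfl⟩)
    · right
      exact ⟨1, e, e, hp h e, 1, x, Core.single e, H.one_mem, hx, by simp⟩
    · by_cases hc : e ≠ e' → g ≠ 1
      · right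
        refine ⟨n + 1, e, f, hp h e * g * w, 1, g', Core.cons e e' f n g w hg hc hw, H.one_mem, hg', ?_⟩
        simp only [mul_assoc, one_mul]
      · push Not at hc
        obtain ⟨hee, rfl⟩ := hc
        have hee' : e = !e' := by cases e <;> cases e' <;> simp_all
        subst hee'
        cases hw with
        | single =>
          left
          rw [one_mul, ← mul_assoc, hp_not_mul, one_mul]
          exact hg'
        | cons _ e'' _ m g₁ w' hg₁ hne hw' =>
          right
          refine ⟨m, e'', f, w', g₁, g', hw', hg₁, hg', ?_⟩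
          rw [one_mul, ← mul_assoc, ← mul_assoc, ← mul_assoc, hp_not_mul, one_mul]
  refine Subgroup.closure_induction_left (p := fun x _ => x ∈ H ∨ ∃ (n : ℕ) (e f : Bool)
    (w g g' : Coc R vec), Core H h n e f w ∧ g ∈ H ∧ g' ∈ H ∧ x = g * w * g') ?_ ?_ ?_ hx
  · left; exact H.one_mem
  · rintro x (hx | hx) y hy ih
    · rcases ih with ih | ⟨n, e, f, w, g, g', hw, hg, hg', rfl⟩
      · left; exact H.mul_mem hx ih
      · right
        exact ⟨n, e, f, w, x * g, g', hw, H.mul_mem hx hg, hg', by simp only [mul_assoc]⟩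
    · rw [Set.mem_singleton_iff] at hx
      subst hx
      have := key true y ih
      simpa [hp] using this
  · rintro x (hx | hx) y hy ih
    · rcases ih with ih | ⟨n, e, f, w, g, g', hw, hg, hg', rfl⟩
      · left; exact H.mul_mem (H.inv_mem hx) ih
      · right
        exact ⟨n, e, f, w, x⁻¹ * g, g', hw, H.mul_mem (H.inv_mem hx) hg, hg', by simp only [mul_assoc]⟩
    · rw [Set.mem_singleton_iff] at hx
      subst hx
      have := key false y ih
      simpa [hp] using this

theorem Data.closure_free (D : Data A t H h ξ η) {x : Coc R vec}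
    (hx : x ∈ Subgroup.closure ((H : Set (Coc R vec)) ∪ {h})) (p : Ω) (hp' : x.e p = p) : x = 1 := by
  rcases mem_closure_cases H h hx with hx | ⟨n, e, f, w, g, g', hw, hg, hg', rfl⟩
  · exact D.free x hx p hp'
  · exfalso
    refine D.core_free n hw (H.mul_mem hg' hg) (g⁻¹.e p) ?_
    have h2 := congrArg (fun q => (g⁻¹).e q) hp'
    simp only [← mul_e] at h2 ⊢
    have h3 : w * (g' * g) * g⁻¹ = g⁻¹ * (g * w * g') := by group
    rw [h3]
    exact h2

theorem Data.closure_nonsc (D : Data A t H h ξ η) {x : Coc R vec}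
    (hx : x ∈ Subgroup.closure ((H : Set (Coc R vec)) ∪ {h})) (hx1 : x ≠ 1) (p : Ω) :
    x.ψ p ≠ 1 ∧ x.ψ p ≠ -1 := by
  rcases mem_closure_cases H h hx with hx | ⟨n, e, f, w, g, g', hw, hg, hg', rfl⟩
  · exact D.nonsc x hx hx1 p
  · have h1 := D.lead hw (g'.e p)
    have key : ∀ c : SL R, EntriesIn A c → (g * w * g').ψ p ≠ c := by
      intro c hc heq
      refine Lead.not_mem D.gen hw.pos (D.ξne _ _) (D.ηne _ _) h1 ?_
      have h2 : w.ψ (g'.e p) = (g.ψ (w.e (g'.e p)))⁻¹ * c * (g'.ψ p)⁻¹ := by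
        rw [← heq]
        simp only [mul_ψ, mul_e]
        group
      rw [h2]
      exact ((D.ent g hg _).inv.mul hc).mul (D.ent g' hg' _).inv
    exact ⟨key 1 (EntriesIn.one A), key (-1) (EntriesIn.one A).neg⟩

end main

end Pool.Agent.Lib.MP_3a0f08_gt
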