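import Pool.Agent.Lib.MP_3a0f08_gt.Alg

set_option autoImplicit false

open Polynomial Matrix

namespace Pool.Agent.Lib.MP_3a0f08_gt

variable {R : Type*} [CommRing R]

/-- Two by two matrices of determinant one. -/
abbrev SL (R : Type*) [CommRing R] := Matrix.SpecialLinearGroup (Fin 2) R

/-- All entries of the matrix lie in the subring `A`. -/
def EntriesIn (A : Subring R) (c : SL R) : Prop := ∀ i j, c.1 i j ∈ A

lemma EntriesIn.mono {A B : Subring R} (h : A ≤ B) {c : SL R} (hc : EntriesIn A c) : EntriesIn B c :=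
  fun i j => h (hc i j)

lemma EntriesIn.one (A : Subring R) : EntriesIn A (1 : SL R) := by
  intro i j
  fin_cases i <;> fin_cases j <;> simp [Subring.zero_mem, Subring.one_mem]

lemma EntriesIn.mul {A : Subring R} {c d : SL R} (hc : EntriesIn A c) (hd : EntriesIn A d) :
    EntriesIn A (c * d) := by
  intro i j
  rw [Matrix.SpecialLinearGroup.coe_mul, Matrix.mul_apply]
  exact Subring.sum_mem _ fun k _ => Subring.mul_mem _ (hc _ _) (hd _ _)

lemma EntriesIn.inv {A : Subring R} {c : SL R} (hc : EntriesIn A c) : EntriesIn A c⁻¹ := by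
  intro i j
  rw [Matrix.SpecialLinearGroup.coe_inv, Matrix.adjugate_fin_two]
  fin_cases i <;> fin_cases j
  · exact hc 1 1
  · exact Subring.neg_mem _ (hc 0 1)
  · exact Subring.neg_mem _ (hc 1 0)
  · exact hc 0 0

lemma EntriesIn.neg {A : Subring R} {c : SL R} (hc : EntriesIn A c) : EntriesIn A (-c) := by
  intro i j
  rw [Matrix.SpecialLinearGroup.coe_neg]
  exact Subring.neg_mem _ (hc i j)

/-- Lower unipotent matrices. -/
def lo (a : R) : SL R := ⟨!![1, 0; a, 1], by simp [Matrix.det_fin_two]⟩

/-- Upper unipotent matrices. -/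
def up (t : R) : SL R := ⟨!![1, t; 0, 1], by simp [Matrix.det_fin_two]⟩

lemma lo_coe (a : R) : (lo a).1 = !![1, 0; a, 1] := rfl
lemma up_coe (a : R) : (up a).1 = !![1, a; 0, 1] := rfl

lemma lo_inv (a : R) : (lo a)⁻¹ = lo (-a) := by
  ext i j
  rw [Matrix.SpecialLinearGroup.coe_inv, Matrix.adjugate_fin_two]
  fin_cases i <;> fin_cases j <;> simp [lo]

lemma up_inv (a : R) : (up a)⁻¹ = up (-a) := by
  ext i j
  rw [Matrix.SpecialLinearGroup.coe_inv, Matrix.adjugate_fin_two]
  fin_cases i <;> fin_cases j <;> simp [up]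

lemma lo_zero : lo (0 : R) = 1 := by
  ext i j
  fin_cases i <;> fin_cases j <;> simp [lo]

lemma EntriesIn.lo {A : Subring R} {a : R} (ha : a ∈ A) : EntriesIn A (lo a) := by
  intro i j
  fin_cases i <;> fin_cases j <;> simp [MP_3a0f08_gt.lo, Subring.zero_mem, Subring.one_mem, ha]

/-- A letter `U * up (κ t) * V` has a leading term of degree one. -/
lemma lead_letter (A : Subring R) [Nontrivial R] (t κ : R) (hκ : κ = 1 ∨ κ = -1) {U V : SL R}
    (hU : EntriesIn A U) (hV : EntriesIn A V) :
    Lead A t 1 (U * up (κ * t) * V : SL R).1 (fun i => U.1 i 0) (fun j => V.1 1 j) := by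
  have hκA : κ ∈ A := by
    rcases hκ with rfl | rfl
    · exact Subring.one_mem _
    · exact Subring.neg_mem _ (Subring.one_mem _)
  have hκ0 : κ ≠ 0 := by
    rcases hκ with rfl | rfl
    · exact one_ne_zero
    · exact neg_ne_zero.2 one_ne_zero
  refine ⟨fun i j => C ((U * V : SL R).1 i j) + C (κ * U.1 i 0 * V.1 1 j) * X, ?_, ?_, ?_, κ, hκ0, ?_⟩
  · intro i j
    refine Subring.add_mem _ (C_mem_polyRing ((hU.mul hV) i j)) (Subring.mul_mem _ (C_mem_polyRing ?_) X_mem_polyRing)
    exact Subring.mul_mem _ (Subring.mul_mem _ hκA (hU _ _)) (hV _ _)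
  · intro i j
    simp only [Polynomial.eval_add, Polynomial.eval_mul, Polynomial.eval_C, Polynomial.eval_X,
      Matrix.SpecialLinearGroup.coe_mul, Matrix.mul_apply, Fin.sum_univ_two, up_coe]
    simp
    ring
  · intro i j
    refine Polynomial.natDegree_add_le_of_degree_le (by simp) ?_
    exact (Polynomial.natDegree_C_mul_le _ _).trans Polynomial.natDegree_X_le
  · intro i j
    simp [Polynomial.coeff_C]

/-- The parameters: `0` at `none` and powers of `τ` elsewhere. -/
def gam (τ : R) : Option ℕ → R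
  | none => 0
  | some n => τ ^ (n + 1)

lemma gam_mem {A : Subring R} {τ : R} (h : τ ∈ A) (n : Option ℕ) : gam τ n ∈ A := by
  cases n with
  | none => exact Subring.zero_mem _
  | some n => exact Subring.pow_mem _ h _

/-- The pairing whose nonvanishing drives the whole argument. -/
def pair (c : SL R) (x y : R) : R := c.1 1 0 + c.1 1 1 * y - x * (c.1 0 0 + c.1 0 1 * y)

lemma pair_ne_zero [IsDomain R] {A : Subring R} {τ : R} (hτ : Gen A τ) {c : SL R} (hc : EntriesIn A c)
    {m n : Option ℕ} (h : m ≠ n ∨ (m = n ∧ m ≠ none ∧ c ≠ 1 ∧ c ≠ -1)) :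
    pair c (gam τ m) (gam τ n) ≠ 0 := by
  have hdet : c.1 0 0 * c.1 1 1 - c.1 0 1 * c.1 1 0 = 1 := by
    rw [← Matrix.det_fin_two]; exact c.2
  intro h0
  have hC : ∀ i j, (C (c.1 i j) : R[X]) ∈ polyRing A := fun i j => C_mem_polyRing (hc i j)
  have hX : ∀ n : ℕ, (X ^ n : R[X]) ∈ polyRing A := fun n => Subring.pow_mem _ X_mem_polyRing _
  rcases m with _ | m <;> rcases n with _ | n
  · -- none none
    rcases h with h | ⟨_, h, _⟩ <;> exact h rfl
  · -- none, some n
    have hP : (C (c.1 1 0) + C (c.1 1 1) * X ^ (n + 1) : R[X]) = 0 := by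
      apply hτ
      · exact Subring.add_mem _ (hC _ _) (Subring.mul_mem _ (hC _ _) (hX _))
      · simpa [pair, gam] using h0
    have e0 := congrArg (fun Q => Polynomial.coeff Q 0) hP
    have e1 := congrArg (fun Q => Polynomial.coeff Q (n + 1)) hP
    simp [Polynomial.coeff_X_pow, Polynomial.coeff_C] at e0 e1
    rw [e0, e1] at hdet
    simp at hdet
  · -- some m, none
    have hP : (C (c.1 1 0) - C (c.1 0 0) * X ^ (m + 1) : R[X]) = 0 := by
      apply hτ
      · exact Subring.sub_mem _ (hC _ _) (Subring.mul_mem _ (hC _ _) (hX _))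
      · simp only [pair, gam] at h0
        simp only [Polynomial.eval_sub, Polynomial.eval_mul, Polynomial.eval_C, Polynomial.eval_pow, Polynomial.eval_X]
        linear_combination h0
    have e0 := congrArg (fun Q => Polynomial.coeff Q 0) hP
    have e1 := congrArg (fun Q => Polynomial.coeff Q (m + 1)) hP
    simp [Polynomial.coeff_X_pow, Polynomial.coeff_C] at e0 e1
    rw [e0, e1] at hdet
    simp at hdet
  · -- some m, some n
    have hP : (C (c.1 1 0) + C (c.1 1 1) * X ^ (n + 1) - C (c.1 0 0) * X ^ (m + 1)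
        - C (c.1 0 1) * X ^ (m + n + 2) : R[X]) = 0 := by
      apply hτ
      · exact Subring.sub_mem _ (Subring.sub_mem _ (Subring.add_mem _ (hC _ _) (Subring.mul_mem _ (hC _ _) (hX _)))
          (Subring.mul_mem _ (hC _ _) (hX _))) (Subring.mul_mem _ (hC _ _) (hX _))
      · simp only [pair, gam] at h0
        simp only [Polynomial.eval_sub, Polynomial.eval_add, Polynomial.eval_mul, Polynomial.eval_C,
          Polynomial.eval_pow, Polynomial.eval_X]
        linear_combination h0
    have e2 := congrArg (fun Q => Polynomial.coeff Q (m + n + 2)) hP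
    have e0 := congrArg (fun Q => Polynomial.coeff Q 0) hP
    have e1 := congrArg (fun Q => Polynomial.coeff Q (n + 1)) hP
    simp only [Polynomial.coeff_sub, Polynomial.coeff_add, Polynomial.coeff_C_mul, Polynomial.coeff_X_pow,
      Polynomial.coeff_C, Polynomial.coeff_zero] at e0 e1 e2
    have a1 : m + n + 2 ≠ 0 := by omega
    have a2 : m + n + 2 ≠ n + 1 := by omega
    have a3 : m + n + 2 ≠ m + 1 := by omega
    have a4 : n + 1 ≠ 0 := by omega
    have a5 : m + 1 ≠ 0 := by omega
    simp only [a1, a2, a3, a4, a1.symm, a2.symm, a4.symm, a5.symm, if_false, if_true, mul_zero, mul_one,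
      add_zero, zero_add, sub_zero, zero_sub, neg_eq_zero] at e0 e1 e2
    -- c01 = 0, c10 = 0
    rcases h with h | ⟨h, _, h1, h2⟩
    · have hmn : n + 1 ≠ m + 1 := by
        intro e; apply h; congr 1; omega
      rw [if_neg hmn] at e1
      simp at e1
      rw [e2, e1] at hdet
      simp at hdet
    · have hmn : m = n := by injection h
      subst hmn
      simp only [if_true, mul_one] at e1
      have e3 : c.1 1 1 = c.1 0 0 := sub_eq_zero.1 e1
      rw [e2, e3] at hdet
      have e4 : (c.1 0 0 - 1) * (c.1 0 0 + 1) = 0 := by linear_combination hdet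
      rcases mul_eq_zero.1 e4 with e5 | e5
      · apply h1
        have e6 : c.1 0 0 = 1 := sub_eq_zero.1 e5
        ext i j
        fin_cases i <;> fin_cases j <;> simp [e0, e2, e3, e6]
      · apply h2
        have e6 : c.1 0 0 = -1 := by linear_combination e5
        ext i j
        fin_cases i <;> fin_cases j <;> simp [e0, e2, e3, e6]

end Pool.Agent.Lib.MP_3a0f08_gt
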