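import Pool.Agent.Lib.MP_3a0f08_gt.Dyn

set_option autoImplicit false

open Matrix Topology

namespace Pool.Agent.Lib.MP_3a0f08_gt

/-- A decreasing sequence of clopen sets, starting with the whole space, with intersection `{p₀}`. -/
structure Nest {Ω : Type*} [TopologicalSpace Ω] (U : ℕ → Set Ω) (p₀ : Ω) : Prop where
  clopen : ∀ n, IsClopen (U n)
  anti : Antitone U
  zero : ∀ p, p ∈ U 0
  inter : ∀ p, (∀ n, p ∈ U n) → p = p₀
  mem : ∀ n, p₀ ∈ U n

section lab

variable {Ω : Type*} [TopologicalSpace Ω] {U : ℕ → Set Ω} {p₀ : Ω}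

open Classical in
/-- The level of a point with respect to a nest. -/
noncomputable def lab (U : ℕ → Set Ω) (p : Ω) : Option ℕ :=
  if h : ∃ n, p ∉ U (n + 1) then some (Nat.find h) else none

lemma Nest.lab_none_iff (N : Nest U p₀) (p : Ω) : lab U p = none ↔ p = p₀ := by
  unfold lab
  constructor
  · intro h
    by_cases hc : ∃ n, p ∉ U (n + 1)
    · rw [dif_pos hc] at h; cases h
    · push Not at hc
      apply N.inter
      intro n
      cases n with
      | zero => exact N.zero p
      | succ n => exact hc n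
  · rintro rfl
    rw [dif_neg]
    push Not
    exact fun n => N.mem _

lemma Nest.lab_some_iff (N : Nest U p₀) (p : Ω) (n : ℕ) : lab U p = some n ↔ p ∈ U n ∧ p ∉ U (n + 1) := by
  classical
  unfold lab
  constructor
  · intro h
    by_cases hc : ∃ n, p ∉ U (n + 1)
    · rw [dif_pos hc] at h
      have h2 : Nat.find hc = n := Option.some.inj h
      refine ⟨?_, h2 ▸ Nat.find_spec hc⟩
      cases n with
      | zero => exact N.zero p
      | succ m =>
        have := Nat.find_min hc (m := m) (by omega)
        push Not at this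
        exact this
    · rw [dif_neg hc] at h; cases h
  · rintro ⟨h1, h2⟩
    have hc : ∃ n, p ∉ U (n + 1) := ⟨n, h2⟩
    rw [dif_pos hc]
    congr 1
    rw [Nat.find_eq_iff]
    refine ⟨h2, ?_⟩
    intro m hm
    push Not
    exact N.anti (by omega) h1

lemma Nest.exists_subset [CompactSpace Ω] [T2Space Ω] (N : Nest U p₀) {V : Set Ω} (hV : V ∈ 𝓝 p₀) :
    ∃ n, U n ⊆ V := by
  refine exists_subset_nhds_of_isCompact' (V := U) (N.anti.directed_ge) (fun n => (N.clopen n).isClosed.isCompact)
    (fun n => (N.clopen n).isClosed) ?_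
  intro x hx
  rw [Set.mem_iInter] at hx
  rw [N.inter x hx]
  exact hV

end lab

end Pool.Agent.Lib.MP_3a0f08_gt
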