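import Pool.Agent.Lib.MP_3a0f08_gt.Twist

set_option autoImplicit false

open Matrix Topology Cardinal

namespace Pool.Agent.Lib.MP_3a0f08_gt

/-- The ideals `2 ^ n ℤ₂`. -/
noncomputable def I₂ (n : ℕ) : Ideal ℤ_[2] := Ideal.span {(2 : ℤ_[2]) ^ n}

lemma inest_I₂ : INest I₂ where
  isOpen n := by
    have h : (I₂ n : Set ℤ_[2]) = Metric.closedBall 0 ((2 : ℝ) ^ (-n : ℤ)) := by
      ext x
      have := PadicInt.norm_le_pow_iff_mem_span_pow (p := 2) x n
      simp only [I₂, SetLike.mem_coe, mem_closedBall_zero_iff]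
      exact this.symm
    rw [h]
    exact IsUltrametricDist.isOpen_closedBall 0 (by positivity)
  anti := by
    intro m n hmn
    unfold I₂
    rw [Ideal.span_singleton_le_span_singleton]
    exact pow_dvd_pow _ hmn
  zero := by simp [I₂]
  inter x hx := by
    rw [← norm_eq_zero]
    have h1 : ∀ n : ℕ, ‖x‖ ≤ (2 : ℝ)⁻¹ ^ n := by
      intro n
      have := (PadicInt.norm_le_pow_iff_mem_span_pow (p := 2) x n).2 (hx n)
      simpa using this
    have h2 : Filter.Tendsto (fun n : ℕ => (2 : ℝ)⁻¹ ^ n) Filter.atTop (𝓝 0) :=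
      tendsto_pow_atTop_nhds_zero_of_lt_one (by norm_num) (by norm_num)
    exact le_antisymm (ge_of_tendsto' h2 h1) (norm_nonneg x)

lemma two_pow_mem (n : ℕ) : (2 : ℤ_[2]) ^ n ∈ I₂ n := Ideal.mem_span_singleton_self _

lemma continuum_le_padic : 𝔠 ≤ #ℤ_[2] := by
  have h1 : #(Metric.closedBall (0 : ℚ_[2]) 1) = #ℚ_[2] :=
    cardinal_eq_of_isOpen ℚ_[2] (IsUltrametricDist.isOpen_closedBall 0 one_ne_zero) ⟨0, by simp⟩
  have h2 : #ℤ_[2] = #(Metric.closedBall (0 : ℚ_[2]) 1) := by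
    have : (Metric.closedBall (0 : ℚ_[2]) 1) = {x : ℚ_[2] | ‖x‖ ≤ 1} := by
      ext x; simp
    rw [this]
    rfl
  rw [h2, h1]
  exact continuum_le_cardinal_of_nontriviallyNormedField ℚ_[2]

lemma card_ZZ_le {R : Type} [CommRing R] (hR : ℵ₀ ≤ #R) : #(ZZ R) ≤ #R := by
  refine (Cardinal.mk_set_le (ZZ R)).trans ?_
  rw [← Cardinal.power_def, Cardinal.mk_fin]
  exact_mod_cast Cardinal.power_nat_le hR

end Pool.Agent.Lib.MP_3a0f08_gt
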