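import Pool.Agent.Lib.MP_3a0f08_gt.Step

set_option autoImplicit false

open Matrix Topology Cardinal

namespace Pool.Agent.Lib.MP_3a0f08_gt

section gen

variable {G : Type*} [Group G] {Ω : Type*}

/-- Elements of the group generated by an image of `D` come from an initial part of `D`. -/
lemma mem_closure_initial (r : Ω → Ω → Prop) [IsWellOrder Ω r] (f : Ω → G) (D : Set Ω) {x : G}
    (hx : x ∈ Subgroup.closure (f '' D)) :
    x = 1 ∨ ∃ q ∈ D, x ∈ Subgroup.closure (insert (f q) (f '' {q' | r q' q})) := by
  have mono : ∀ q q', r q q' → Subgroup.closure (insert (f q) (f '' {q' | r q' q})) ≤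
      Subgroup.closure (insert (f q') (f '' {q'' | r q'' q'})) := by
    intro q q' hqq'
    refine Subgroup.closure_mono ?_
    rintro _ (rfl | ⟨q'', hq'', rfl⟩)
    · exact Or.inr ⟨q, hqq', rfl⟩
    · exact Or.inr ⟨q'', _root_.trans (r := r) hq'' hqq', rfl⟩
  induction hx using Subgroup.closure_induction with
  | mem x hx =>
    obtain ⟨q, hq, rfl⟩ := hx
    exact Or.inr ⟨q, hq, Subgroup.subset_closure (Or.inl rfl)⟩
  | one => exact Or.inl rfl
  | mul x y _ _ ihx ihy =>
    rcases ihx with rfl | ⟨q, hq, hxq⟩
    · rw [one_mul]; exact ihy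
    · rcases ihy with rfl | ⟨q', hq', hyq⟩
      · rw [mul_one]; exact Or.inr ⟨q, hq, hxq⟩
      · right
        rcases trichotomous_of r q q' with h | rfl | h
        · exact ⟨q', hq', Subgroup.mul_mem _ (mono q q' h hxq) hyq⟩
        · exact ⟨q, hq, Subgroup.mul_mem _ hxq hyq⟩
        · exact ⟨q, hq, Subgroup.mul_mem _ hxq (mono q' q h hyq)⟩
  | inv x _ ihx =>
    rcases ihx with rfl | ⟨q, hq, hxq⟩
    · left; simp
    · exact Or.inr ⟨q, hq, Subgroup.inv_mem _ hxq⟩

end gen

section rec

variable {R : Type} [CommRing R] [IsDomain R] [TopologicalSpace R] [IsTopologicalRing R] [CompactSpace R]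
  [T2Space R] {X : Type} [TopologicalSpace X] [CompactSpace X] [T2Space X]

/-- The group generated by `S` acts freely, with nontrivial matrices. -/
def Good (S : Set (Coc R (vecX X R))) : Prop :=
  (∀ x ∈ Subgroup.closure S, ∀ p, x.e p = p → x = 1) ∧
    (∀ x ∈ Subgroup.closure S, x ≠ 1 → ∀ p, x.ψ p ≠ 1 ∧ x.ψ p ≠ -1)

theorem exists_group {W : ℕ → Set X} {x₀ : X} {I : ℕ → Ideal R} (NW : Nest W x₀) (NI : INest I) {π : R}
    (hπ0 : π ≠ 0) (hπ : ∀ n, π ^ n ∈ I n) (hR : ℵ₀ < #R) (hhom : ∀ x : X, ∃ φ : X ≃ₜ X, φ x₀ = x)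
    (hcard : #(X × ZZ R) ≤ #R) :
    ∃ G : Subgroup (Coc R (vecX X R)), (∀ g ∈ G, ∀ p, g.e p = p → g = 1) ∧
      ∀ p, ∃ g ∈ G, g.e (x₀, z₀ R) = p := by
  classical
  obtain ⟨r, wo, hr⟩ := Cardinal.exists_ord_eq (X × ZZ R)
  -- the choice at a given stage
  let Pr : (X × ZZ R) → Set (Coc R (vecX X R)) → Coc R (vecX X R) → Prop := fun p S h =>
    (∃ g ∈ Subgroup.closure (insert h S), g.e (x₀, z₀ R) = p) ∧ (Set.range h.ψ).Countable ∧ Good (insert h S)
  let gF : X × ZZ R → Set (Coc R (vecX X R)) → Coc R (vecX X R) := fun p S =>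
    if hh : ∃ h, Pr p S h then hh.choose else 1
  have hgF : ∀ p S, (∃ h, Pr p S h) → Pr p S (gF p S) := by
    intro p S hh
    have : gF p S = hh.choose := dif_pos hh
    rw [this]
    exact hh.choose_spec
  let F : (p : X × ZZ R) → ((q : X × ZZ R) → r q p → Coc R (vecX X R)) → Coc R (vecX X R) := fun p f =>
    gF p {g | ∃ q, ∃ hq : r q p, f q hq = g}
  let hs : X × ZZ R → Coc R (vecX X R) := wo.wf.fix F
  have hs_eq : ∀ p, hs p = F p (fun q _ => hs q) := fun p => wo.wf.fix_eq F p
  have hset : ∀ p, {g | ∃ q, ∃ _ : r q p, hs q = g} = hs '' {q | r q p} := by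
    intro p
    ext g
    simp
  -- one step
  have hstep : ∀ p, Good (hs '' {q | r q p}) → (∀ q, r q p → (Set.range (hs q).ψ).Countable) →
      Pr p (hs '' {q | r q p}) (hs p) := by
    intro p hg hcount
    have hex : ∃ h, Pr p (hs '' {q | r q p}) h := by
      by_cases horb : ∃ g ∈ Subgroup.closure (hs '' {q | r q p}), g.e (x₀, z₀ R) = p
      · have hcl : Subgroup.closure (insert (1 : Coc R (vecX X R)) (hs '' {q | r q p})) =
            Subgroup.closure (hs '' {q | r q p}) := by
          apply le_antisymm
          · rw [Subgroup.closure_le]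
            rintro x (rfl | hx)
            · exact Subgroup.one_mem _
            · exact Subgroup.subset_closure hx
          · exact Subgroup.closure_mono (Set.subset_insert _ _)
        refine ⟨1, ?_, ?_, ?_⟩
        · rw [hcl]; exact horb
        · have : Set.range (1 : Coc R (vecX X R)).ψ ⊆ {1} := by
            rintro _ ⟨q, rfl⟩; rfl
          exact (Set.countable_singleton _).mono this
        · unfold Good
          rw [hcl]
          exact hg
      · push Not at horb
        -- the coefficient ring
        set E : (X × ZZ R) → Set R := fun q =>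
          ⋃ c ∈ Set.range (hs q).ψ, Set.range (fun ij : Fin 2 × Fin 2 => c.1 ij.1 ij.2) with hE
        set k : Subring R := Subring.closure (⋃ q ∈ {q | r q p}, E q) with hk
        have hEc : ∀ q, r q p → (E q).Countable := fun q hq =>
          (hcount q hq).biUnion fun c _ => Set.countable_range _
        have hkc : #k < #R := by
          refine (card_closure_le _).trans_lt (max_lt ?_ hR)
          refine (Cardinal.mk_biUnion_le E {q | r q p}).trans_lt ?_
          have h1 : ⨆ x : {q | r q p}, #(E x.1) ≤ ℵ₀ := by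
            apply ciSup_le'
            intro q
            exact (hEc q.1 q.2).le_aleph0
          have h2 : #{q | r q p} < #R := by
            have h3 := Cardinal.card_typein_lt (r := r) p hr
            rw [← Ordinal.type_subrel, Ordinal.card_type] at h3
            exact lt_of_lt_of_le h3 hcard
          refine (mul_le_mul' le_rfl h1).trans_lt ?_
          exact Cardinal.mul_lt_of_lt hR.le h2 hR
        have hent : ∀ g ∈ Subgroup.closure (hs '' {q | r q p}), ∀ ω, EntriesIn k (g.ψ ω) := by
          intro g hg
          induction hg using Subgroup.closure_induction with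
          | mem x hx =>
            obtain ⟨q, hq, rfl⟩ := hx
            intro ω i j
            apply Subring.subset_closure
            refine Set.mem_biUnion hq ?_
            exact Set.mem_biUnion ⟨ω, rfl⟩ ⟨(i, j), rfl⟩
          | one => intro ω; exact EntriesIn.one k
          | mul x y _ _ ihx ihy => intro ω; exact (ihx _).mul (ihy _)
          | inv x _ ihx => intro ω; exact (ihx _).inv
        obtain ⟨φ, hφ⟩ := hhom p.1
        obtain ⟨h, h1, h2, h3, h4⟩ := step NW NI hπ0 hπ hR (Subgroup.closure (hs '' {q | r q p})) hg.1 hg.2 k hkc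
          hent p.1 p.2 φ hφ horb
        have hcl : Subgroup.closure (insert h (hs '' {q | r q p})) =
            Subgroup.closure ((Subgroup.closure (hs '' {q | r q p}) : Set (Coc R (vecX X R))) ∪ {h}) := by
          apply le_antisymm
          · refine Subgroup.closure_mono ?_
            rintro x (rfl | hx)
            · exact Or.inr rfl
            · exact Or.inl (Subgroup.subset_closure hx)
          · rw [Subgroup.closure_le]
            rintro x (hx | hx)
            · exact Subgroup.closure_mono (Set.subset_insert _ _) hx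
            · rw [Set.mem_singleton_iff] at hx
              subst hx
              exact Subgroup.subset_closure (Or.inl rfl)
        refine ⟨h, ⟨h, Subgroup.subset_closure (Or.inl rfl), h1⟩, h2, ?_⟩
        unfold Good
        rw [hcl]
        exact ⟨h3, h4⟩
    have h1 : hs p = gF p (hs '' {q | r q p}) := by
      rw [hs_eq p]
      change gF p {g | ∃ q, ∃ _ : r q p, hs q = g} = _
      rw [hset p]
    rw [h1]
    exact hgF p _ hex
  -- the recursion
  have hall : ∀ p, Good (hs '' {q | r q p}) ∧ Pr p (hs '' {q | r q p}) (hs p) := by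
    intro p
    induction p using wo.wf.induction with
    | _ p ih =>
    have hgood : Good (hs '' {q | r q p}) := by
      constructor
      · intro x hx ω hω
        rcases mem_closure_initial r hs {q | r q p} hx with rfl | ⟨q, hq, hxq⟩
        · rfl
        · exact (ih q hq).2.2.2.1 x hxq ω hω
      · intro x hx hx1 ω
        rcases mem_closure_initial r hs {q | r q p} hx with rfl | ⟨q, hq, hxq⟩
        · exact absurd rfl hx1
        · exact (ih q hq).2.2.2.2 x hxq hx1 ω
    exact ⟨hgood, hstep p hgood fun q hq => (ih q hq).2.2.1⟩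
  refine ⟨Subgroup.closure (hs '' Set.univ), ?_, ?_⟩
  · intro x hx ω hω
    rcases mem_closure_initial r hs Set.univ hx with rfl | ⟨q, hq, hxq⟩
    · rfl
    · exact (hall q).2.2.2.1 x hxq ω hω
  · intro p
    obtain ⟨g, hg, hgp⟩ := (hall p).2.1
    refine ⟨g, ?_, hgp⟩
    refine Subgroup.closure_mono ?_ hg
    rintro _ (rfl | ⟨q, _, rfl⟩)
    · exact ⟨p, trivial, rfl⟩
    · exact ⟨q, trivial, rfl⟩

end rec

end Pool.Agent.Lib.MP_3a0f08_gt
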