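import Pool.Agent.Lib.MP_3a0f08_gt.Nest

set_option autoImplicit false

open Topology Cardinal Set

namespace Pool.Agent.Lib.MP_3a0f08_gt

/-- The Cantor space. -/
abbrev Cn : Type := ℕ → Bool

/-- The Cantor space with an additional isolated point. -/
abbrev Dn : Type := Cn ⊕ Unit

/-- The function `f` codes a nonempty finite or infinite sequence of elements of `Cn`: it sends an
initial segment of the sequence to the next entry (if any) and all other lists to `inr ()`. -/
def IsPt (f : List Cn → Dn) : Prop :=
  (∃ c, f [] = Sum.inl c) ∧ ∀ s d s', f (s ++ d :: s') = Sum.inr () ∨ f s = Sum.inl d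

/-- The space of nonempty finite or infinite sequences of elements of the Cantor space. -/
def XS : Set (List Cn → Dn) := {f | IsPt f}

/-- The same as a type. -/
abbrev XX : Type := XS

lemma isClosed_XS : IsClosed XS := by
  have h1 : XS = ((fun f : List Cn → Dn => f []) ⁻¹' (Set.range Sum.inl)) ∩
      ⋂ s : List Cn, ⋂ d : Cn, ⋂ s' : List Cn,
        ({f : List Cn → Dn | f (s ++ d :: s') = Sum.inr ()} ∪ {f : List Cn → Dn | f s = Sum.inl d}) := by
    ext f
    simp only [XS, IsPt, Set.mem_ofPred_eq, Set.mem_inter_iff, Set.mem_preimage, Set.mem_range, Set.mem_iInter,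
      Set.mem_union]
    constructor
    · rintro ⟨⟨c, hc⟩, h⟩
      exact ⟨⟨c, hc.symm⟩, h⟩
    · rintro ⟨⟨c, hc⟩, h⟩
      exact ⟨⟨c, hc.symm⟩, h⟩
  rw [h1]
  refine IsClosed.inter (isClosed_range_inl.preimage (continuous_apply _)) ?_
  refine isClosed_iInter fun s => isClosed_iInter fun d => isClosed_iInter fun s' => IsClosed.union ?_ ?_
  · exact isClosed_eq (continuous_apply _) continuous_const
  · exact isClosed_eq (continuous_apply _) continuous_const

instance : CompactSpace XX := isCompact_iff_compactSpace.1 isClosed_XS.isCompact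

open Classical in
/-- Adding a new first entry, on the level of codes. -/
noncomputable def consF (c : Cn) (f : List Cn → Dn) : List Cn → Dn
  | [] => Sum.inl c
  | d :: s => if d = c then f s else Sum.inr ()

/-- Adding a new first entry. -/
noncomputable def cons (c : Cn) (x : XX) : XX :=
  ⟨consF c x.1, by
    refine ⟨⟨c, rfl⟩, ?_⟩
    rintro s d s'
    cases s with
    | nil =>
      by_cases h : d = c
      · right; rw [h]; rfl
      · left; simp [consF, h]
    | cons e s =>
      by_cases h : e = c
      · have := x.2.2 s d s'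
        simpa [consF, h] using this
      · left; simp [consF, h]⟩

/-- Sequences of length one. -/
def singleF (c : Cn) : List Cn → Dn
  | [] => Sum.inl c
  | _ :: _ => Sum.inr ()

/-- Sequences of length one. -/
def single (c : Cn) : XX :=
  ⟨singleF c, ⟨c, rfl⟩, by
    intro s d s'
    left
    cases s <;> rfl⟩

lemma cons_nil (c : Cn) (x : XX) : (cons c x).1 [] = Sum.inl c := rfl
lemma cons_cons_self (c : Cn) (x : XX) (s : List Cn) : (cons c x).1 (c :: s) = x.1 s := by
  simp [cons, consF]
lemma cons_cons_ne {c d : Cn} (h : d ≠ c) (x : XX) (s : List Cn) : (cons c x).1 (d :: s) = Sum.inr () := by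
  simp [cons, consF, h]

lemma eq_single_of {x : XX} {c : Cn} (h0 : x.1 [] = Sum.inl c) (h1 : x.1 [c] = Sum.inr ()) : x = single c := by
  apply Subtype.ext
  funext s
  cases s with
  | nil => exact h0
  | cons d s =>
    change x.1 (d :: s) = Sum.inr ()
    by_cases hd : d = c
    · subst hd
      cases s with
      | nil => exact h1
      | cons e s =>
        rcases x.2.2 [d] e s with h | h
        · exact h
        · rw [h1] at h; cases h
    · rcases x.2.2 [] d s with h | h
      · exact h
      · rw [h0] at h
        exact absurd (Sum.inl.inj h).symm hd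

lemma exists_cons_of {x : XX} {c c' : Cn} (h0 : x.1 [] = Sum.inl c) (h1 : x.1 [c] = Sum.inl c') :
    ∃ y, x = cons c y := by
  refine ⟨⟨fun s => x.1 (c :: s), ⟨c', h1⟩, fun s d s' => x.2.2 (c :: s) d s'⟩, ?_⟩
  apply Subtype.ext
  funext s
  cases s with
  | nil => exact h0
  | cons d s =>
    by_cases hd : d = c
    · subst hd
      rw [cons_cons_self]
    · rw [cons_cons_ne hd]
      rcases x.2.2 [] d s with h | h
      · exact h
      · rw [h0] at h
        exact absurd (Sum.inl.inj h).symm hd

lemma single_or_cons (x : XX) : (∃ c, x = single c) ∨ ∃ c y, x = cons c y := by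
  obtain ⟨c, hc⟩ := x.2.1
  rcases h : x.1 [c] with c' | u
  · right
    obtain ⟨y, hy⟩ := exists_cons_of hc h
    exact ⟨c, y, hy⟩
  · left
    exact ⟨c, eq_single_of hc h⟩

lemma cons_injective (c : Cn) : Function.Injective (cons c) := by
  intro x y h
  apply Subtype.ext
  funext s
  rw [← cons_cons_self c x s, ← cons_cons_self c y s, h]

lemma single_ne_cons (c d : Cn) (x : XX) : single c ≠ cons d x := by
  intro h
  have h0 : (single c).1 [] = (cons d x).1 [] := by rw [h]
  have h1 : c = d := Sum.inl.inj h0
  subst h1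
  have h2 : (single c).1 [c] = (cons c x).1 [c] := by rw [h]
  rw [cons_cons_self] at h2
  obtain ⟨c', hc'⟩ := x.2.1
  rw [hc'] at h2
  cases h2

lemma mem_range_cons_iff (c : Cn) (x : XX) : x ∈ range (cons c) ↔ x.1 [c] ∈ range (Sum.inl : Cn → Dn) := by
  constructor
  · rintro ⟨y, rfl⟩
    rw [cons_cons_self]
    obtain ⟨c', hc'⟩ := y.2.1
    exact ⟨c', hc'.symm⟩
  · rintro ⟨c', hc'⟩
    rcases x.2.2 [] c [] with h | h
    · simp only [List.nil_append] at h
      rw [h] at hc'; cases hc'
    · obtain ⟨y, hy⟩ := exists_cons_of h hc'.symm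
      exact ⟨y, hy.symm⟩

lemma continuous_cons (c : Cn) : Continuous (cons c) := by
  unfold cons
  refine Continuous.subtype_mk ?_ _
  refine continuous_pi fun s => ?_
  cases s with
  | nil => exact continuous_const
  | cons d s =>
    by_cases hd : d = c
    · simp only [consF, hd, if_true]
      exact (continuous_apply s).comp continuous_subtype_val
    · simp only [consF, hd, if_false]
      exact continuous_const

lemma isOpenEmbedding_cons (c : Cn) : IsOpenEmbedding (cons c) := by
  refine ⟨((continuous_cons c).isClosedEmbedding (cons_injective c)).isEmbedding, ?_⟩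
  have : range (cons c) = (fun x : XX => x.1 [c]) ⁻¹' range (Sum.inl : Cn → Dn) := by
    ext x
    exact mem_range_cons_iff c x
  rw [this]
  exact isOpen_range_inl.preimage ((continuous_apply _).comp continuous_subtype_val)

open Classical in
/-- Applying an injective map to the first entry, on the level of codes. -/
noncomputable def mapHeadF (j : Cn → Cn) (f : List Cn → Dn) : List Cn → Dn
  | [] => Sum.map j id (f [])
  | d :: s => if h : ∃ e, j e = d then f (h.choose :: s) else Sum.inr ()

lemma mapHeadF_cons {j : Cn → Cn} (hj : Function.Injective j) (f : List Cn → Dn) (e : Cn) (s : List Cn) :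
    mapHeadF j f (j e :: s) = f (e :: s) := by
  have h : ∃ e', j e' = j e := ⟨e, rfl⟩
  have h2 : h.choose = e := hj h.choose_spec
  simp only [mapHeadF]
  rw [dif_pos h, h2]

lemma mapHeadF_of_not {j : Cn → Cn} {d : Cn} (h : ¬ ∃ e, j e = d) (f : List Cn → Dn) (s : List Cn) :
    mapHeadF j f (d :: s) = Sum.inr () := by
  simp only [mapHeadF]
  rw [dif_neg h]

/-- Applying an injective map to the first entry. -/
noncomputable def mapHead (j : Cn → Cn) (hj : Function.Injective j) (x : XX) : XX :=
  ⟨mapHeadF j x.1, by
    obtain ⟨c, hc⟩ := x.2.1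
    refine ⟨⟨j c, by simp [mapHeadF, hc]⟩, ?_⟩
    intro s d s'
    cases s with
    | nil =>
      by_cases h : ∃ e, j e = d
      · obtain ⟨e, rfl⟩ := h
        rw [List.nil_append, mapHeadF_cons hj]
        rcases x.2.2 [] e s' with h | h
        · left; exact h
        · right; simp [mapHeadF, h]
      · left; rw [List.nil_append, mapHeadF_of_not h]
    | cons d' s =>
      by_cases h : ∃ e, j e = d'
      · obtain ⟨e, rfl⟩ := h
        rw [List.cons_append, mapHeadF_cons hj, mapHeadF_cons hj]
        exact x.2.2 (e :: s) d s'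
      · left; rw [List.cons_append, mapHeadF_of_not h]⟩

lemma mapHead_injective (j : Cn → Cn) (hj : Function.Injective j) : Function.Injective (mapHead j hj) := by
  intro x y h
  apply Subtype.ext
  funext s
  cases s with
  | nil =>
    have h1 : (mapHead j hj x).1 [] = (mapHead j hj y).1 [] := by rw [h]
    exact (Sum.map_injective.2 ⟨hj, Function.injective_id⟩) h1
  | cons e s =>
    have h1 : (mapHead j hj x).1 (j e :: s) = (mapHead j hj y).1 (j e :: s) := by rw [h]
    have h2 : (mapHead j hj x).1 (j e :: s) = x.1 (e :: s) := mapHeadF_cons hj _ _ _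
    have h3 : (mapHead j hj y).1 (j e :: s) = y.1 (e :: s) := mapHeadF_cons hj _ _ _
    rw [← h2, ← h3, h1]

lemma mem_range_mapHead_iff (j : Cn → Cn) (hj : Function.Injective j) (x : XX) :
    x ∈ range (mapHead j hj) ↔ ∃ c, x.1 [] = Sum.inl (j c) := by
  constructor
  · rintro ⟨y, rfl⟩
    obtain ⟨c, hc⟩ := y.2.1
    exact ⟨c, by simp [mapHead, mapHeadF, hc]⟩
  · rintro ⟨c, hc⟩
    let g : List Cn → Dn := fun s => match s with
      | [] => Sum.inl c
      | e :: s => x.1 (j e :: s)
    have hg : IsPt g := by
      refine ⟨⟨c, rfl⟩, ?_⟩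
      intro s d s'
      cases s with
      | nil =>
        rcases x.2.2 [] (j d) s' with h | h
        · left; exact h
        · right
          rw [hc] at h
          have := hj (Sum.inl.inj h)
          rw [← this]
      | cons e s => exact x.2.2 (j e :: s) d s'
    refine ⟨⟨g, hg⟩, ?_⟩
    apply Subtype.ext
    funext s
    cases s with
    | nil =>
      change Sum.map j id (Sum.inl c) = x.1 []
      rw [hc]; rfl
    | cons d s =>
      by_cases h : ∃ e, j e = d
      · obtain ⟨e, rfl⟩ := h
        change mapHeadF j g (j e :: s) = _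
        rw [mapHeadF_cons hj]
      · change mapHeadF j g (d :: s) = _
        rw [mapHeadF_of_not h]
        rcases x.2.2 [] d s with h' | h'
        · exact h'.symm
        · rw [hc] at h'
          exact absurd ⟨c, Sum.inl.inj h'⟩ h

lemma continuous_mapHead (j : Cn → Cn) (hj : Function.Injective j) (hjc : Continuous j) :
    Continuous (mapHead j hj) := by
  unfold mapHead
  refine Continuous.subtype_mk ?_ _
  refine continuous_pi fun s => ?_
  cases s with
  | nil =>
    exact (hjc.sumMap continuous_id).comp ((continuous_apply []).comp continuous_subtype_val)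
  | cons d s =>
    by_cases h : ∃ e, j e = d
    · obtain ⟨e, rfl⟩ := h
      simp only [mapHeadF_cons hj]
      exact (continuous_apply _).comp continuous_subtype_val
    · simp only [mapHeadF_of_not h]
      exact continuous_const

lemma isOpenEmbedding_mapHead (j : Cn → Cn) (hj : Function.Injective j) (hjc : Continuous j)
    (hjo : IsOpen (range j)) : IsOpenEmbedding (mapHead j hj) := by
  refine ⟨((continuous_mapHead j hj hjc).isClosedEmbedding (mapHead_injective j hj)).isEmbedding, ?_⟩
  have : range (mapHead j hj) = (fun x : XX => x.1 []) ⁻¹' (Sum.inl '' range j) := by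
    ext x
    rw [mem_range_mapHead_iff]
    constructor
    · rintro ⟨c, hc⟩
      exact ⟨j c, ⟨c, rfl⟩, hc.symm⟩
    · rintro ⟨_, ⟨c, rfl⟩, hc⟩
      exact ⟨c, hc.symm⟩
  rw [this]
  exact (isOpenMap_inl _ hjo).preimage ((continuous_apply _).comp continuous_subtype_val)

/-- Splice: keep `c` below `n`, flip the `n`-th digit, and continue with `x`. -/
def jj (c : Cn) (n : ℕ) (x : Cn) : Cn := fun m => if m < n then c m else if m = n then !(c n) else x (m - n - 1)

lemma jj_injective (c : Cn) (n : ℕ) : Function.Injective (jj c n) := by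
  intro x y h
  funext m
  have := congrFun h (n + 1 + m)
  simp only [jj] at this
  have h1 : ¬ (n + 1 + m < n) := by omega
  have h2 : ¬ (n + 1 + m = n) := by omega
  have h3 : n + 1 + m - n - 1 = m := by omega
  rwa [if_neg h1, if_neg h2, if_neg h1, if_neg h2, h3] at this

lemma continuous_jj (c : Cn) (n : ℕ) : Continuous (jj c n) := by
  refine continuous_pi fun m => ?_
  unfold jj
  by_cases h1 : m < n
  · simp only [h1, if_true]; exact continuous_const
  · by_cases h2 : m = n
    · simp only [h1, h2, if_true, if_false]; exact continuous_const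
    · simp only [h1, h2, if_false]; exact continuous_apply _

lemma mem_range_jj_iff (c : Cn) (n : ℕ) (y : Cn) : y ∈ range (jj c n) ↔ (∀ m < n, y m = c m) ∧ y n ≠ c n := by
  constructor
  · rintro ⟨x, rfl⟩
    refine ⟨?_, ?_⟩
    · intro m hm
      simp [jj, hm]
    · simp [jj]
  · rintro ⟨h1, h2⟩
    refine ⟨fun m => y (n + 1 + m), ?_⟩
    funext m
    unfold jj
    by_cases h3 : m < n
    · rw [if_pos h3, h1 m h3]
    · by_cases h4 : m = n
      · subst h4
        rw [if_neg h3, if_pos rfl]
        cases hy : y m <;> cases hc : c m <;> simp_all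
      · rw [if_neg h3, if_neg h4]
        change y (n + 1 + (m - n - 1)) = y m
        congr 1
        omega

lemma isOpen_range_jj (c : Cn) (n : ℕ) : IsOpen (range (jj c n)) := by
  have : range (jj c n) = (⋂ m ∈ Set.Iio n, {y : Cn | y m = c m}) ∩ {y : Cn | y n ≠ c n} := by
    ext y
    rw [mem_range_jj_iff]
    simp
  rw [this]
  refine IsOpen.inter ((Set.finite_Iio n).isOpen_biInter fun m _ => ?_) ?_
  · exact (isOpen_discrete ({c m} : Set Bool)).preimage (continuous_apply m : Continuous fun y : Cn => y m)
  · exact (isOpen_discrete ({c n}ᶜ : Set Bool)).preimage (continuous_apply n : Continuous fun y : Cn => y n)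

lemma exists_jj (c y : Cn) (h : y ≠ c) : ∃ n, y ∈ range (jj c n) := by
  classical
  have h1 : ∃ n, y n ≠ c n := Function.ne_iff.1 h
  refine ⟨Nat.find h1, ?_⟩
  rw [mem_range_jj_iff]
  refine ⟨fun m hm => ?_, Nat.find_spec h1⟩
  have := Nat.find_min h1 hm
  push Not at this
  exact this

lemma jj_disjoint (c : Cn) {m n : ℕ} (hmn : m < n) : Disjoint (range (jj c m)) (range (jj c n)) := by
  rw [Set.disjoint_left]
  intro y h1 h2
  rw [mem_range_jj_iff] at h1 h2
  exact h1.2 (h2.1 m hmn)

/-- The complement of the point `y` is a disjoint union of countably many open copies of `XX`. -/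
def PP (Y : Type) [TopologicalSpace Y] (y : Y) : Prop :=
  ∃ F : ℕ × XX → Y, IsOpenEmbedding F ∧ range F = {y}ᶜ

lemma mkPP {Y : Type} [TopologicalSpace Y] (y : Y) (F : ℕ → XX → Y) (hF : ∀ n, IsOpenEmbedding (F n))
    (hd : ∀ m n, m < n → Disjoint (range (F m)) (range (F n))) (hc : ∀ z, z ≠ y ↔ ∃ n, z ∈ range (F n)) :
    PP Y y := by
  refine ⟨fun p => F p.1 p.2, ?_, ?_⟩
  · refine IsOpenEmbedding.of_continuous_injective_isOpenMap ?_ ?_ ?_
    · rw [continuous_prod_of_discrete_left]
      intro n
      exact (hF n).continuous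
    · rintro ⟨m, x⟩ ⟨n, x'⟩ h
      have h : F m x = F n x' := h
      rcases lt_trichotomy m n with hmn | rfl | hmn
      · exact absurd h ((Set.disjoint_left.1 (hd m n hmn) ⟨x, rfl⟩ ⟨x', ·.symm⟩))
      · rw [(hF m).injective h]
      · exact absurd h ((Set.disjoint_left.1 (hd n m hmn) ⟨x', rfl⟩ ⟨x, ·⟩))
    · intro U hU
      have : (fun p : ℕ × XX => F p.1 p.2) '' U = ⋃ n, F n '' {x | (n, x) ∈ U} := by
        ext z
        simp only [Set.mem_image, Set.mem_iUnion, Prod.exists]
        constructor
        · rintro ⟨n, x, hx, rfl⟩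
          exact ⟨n, x, hx, rfl⟩
        · rintro ⟨n, x, hx, rfl⟩
          exact ⟨n, x, hx, rfl⟩
      rw [this]
      refine isOpen_iUnion fun n => (hF n).isOpenMap _ ?_
      exact hU.preimage (Continuous.prodMk_right n)
  · ext z
    rw [Set.mem_compl_iff, Set.mem_singleton_iff]
    constructor
    · rintro ⟨p, rfl⟩
      exact (hc _).2 ⟨p.1, p.2, rfl⟩
    · intro h
      obtain ⟨n, x, rfl⟩ := (hc z).1 h
      exact ⟨(n, x), rfl⟩

lemma PP.homeo {Y Y' : Type} [TopologicalSpace Y] [TopologicalSpace Y'] [CompactSpace Y] [CompactSpace Y']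
    [T2Space Y] [T2Space Y'] {y : Y} {y' : Y'} (h : PP Y y) (h' : PP Y' y') : ∃ φ : Y ≃ₜ Y', φ y = y' := by
  obtain ⟨F, hF, hFr⟩ := h
  obtain ⟨F', hF', hFr'⟩ := h'
  let a := OnePoint.equivOfIsEmbeddingOfRangeEq y F hF.isEmbedding hFr
  let b := OnePoint.equivOfIsEmbeddingOfRangeEq y' F' hF'.isEmbedding hFr'
  refine ⟨a.symm.trans b, ?_⟩
  have : a.symm y = OnePoint.infty := by
    rw [Homeomorph.symm_apply_eq]
    rfl
  rw [Homeomorph.trans_apply, this]
  rfl

lemma PP_single (c : Cn) : PP XX (single c) := by
  refine mkPP (single c) (fun n => match n with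
    | 0 => cons c
    | n + 1 => mapHead (jj c n) (jj_injective c n)) ?_ ?_ ?_
  · intro n
    cases n with
    | zero => exact isOpenEmbedding_cons c
    | succ n => exact isOpenEmbedding_mapHead _ _ (continuous_jj c n) (isOpen_range_jj c n)
  · intro m n hmn
    cases n with
    | zero => omega
    | succ n =>
      cases m with
      | zero =>
        rw [Set.disjoint_left]
        rintro x ⟨y, rfl⟩ hx
        obtain ⟨e, he⟩ := (mem_range_mapHead_iff _ _ _).1 hx
        have h1 : c = jj c n e := Sum.inl.inj he
        have h2 := ((mem_range_jj_iff c n (jj c n e)).1 ⟨e, rfl⟩).2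
        exact h2 (by rw [← h1])
      | succ m =>
        rw [Set.disjoint_left]
        intro x hx hx'
        obtain ⟨e, he⟩ := (mem_range_mapHead_iff _ _ _).1 hx
        obtain ⟨e', he'⟩ := (mem_range_mapHead_iff _ _ _).1 hx'
        rw [he] at he'
        have h1 : jj c m e = jj c n e' := Sum.inl.inj he'
        exact Set.disjoint_left.1 (jj_disjoint c (by omega : m < n)) ⟨e, rfl⟩ ⟨e', h1.symm⟩
  · intro x
    constructor
    · intro hx
      obtain ⟨d, hd⟩ := x.2.1
      by_cases hdc : d = c
      · subst hdc
        refine ⟨0, ?_⟩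
        rw [mem_range_cons_iff]
        rcases h : x.1 [d] with c' | u
        · exact ⟨c', rfl⟩
        · exact absurd (eq_single_of hd h) hx
      · obtain ⟨n, e, he⟩ := exists_jj c d hdc
        refine ⟨n + 1, ?_⟩
        rw [mem_range_mapHead_iff]
        exact ⟨e, by rw [he]; exact hd⟩
    · rintro ⟨n, hn⟩ rfl
      cases n with
      | zero =>
        obtain ⟨y, hy⟩ := hn
        exact single_ne_cons c c y hy.symm
      | succ n =>
        obtain ⟨e, he⟩ := (mem_range_mapHead_iff _ _ _).1 hn
        have h1 : c = jj c n e := Sum.inl.inj he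
        have h2 := ((mem_range_jj_iff c n (jj c n e)).1 ⟨e, rfl⟩).2
        exact h2 (by rw [← h1])

/-- There is an open copy of `XX` filling the complement of the range of `cons c`. -/
lemma exists_EE (c : Cn) : ∃ E : XX → XX, IsOpenEmbedding E ∧ range E = (range (cons c))ᶜ := by
  let Y : Set XX := (range (cons c))ᶜ
  have hYc : IsClosed Y := (isOpenEmbedding_cons c).isOpen_range.isClosed_compl
  have hYo : IsOpen Y := by
    have h1 : IsClosed (range (cons c)) := (isCompact_range (continuous_cons c)).isClosed
    exact h1.isOpen_compl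
  have : CompactSpace Y := isCompact_iff_compactSpace.1 hYc.isCompact
  have hsY : single c ∈ Y := fun ⟨y, hy⟩ => single_ne_cons c c y hy.symm
  have hmY : ∀ n x, mapHead (jj c n) (jj_injective c n) x ∈ Y := by
    rintro n x ⟨y, hy⟩
    have hx : cons c y ∈ range (mapHead (jj c n) (jj_injective c n)) := ⟨x, hy.symm⟩
    obtain ⟨e, he⟩ := (mem_range_mapHead_iff _ _ _).1 hx
    have h1 : c = jj c n e := Sum.inl.inj he
    have h2 := ((mem_range_jj_iff c n (jj c n e)).1 ⟨e, rfl⟩).2
    exact h2 (by rw [← h1])
  have hP : PP Y ⟨single c, hsY⟩ := by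
    refine mkPP _ (fun n x => ⟨mapHead (jj c n) (jj_injective c n) x, hmY n x⟩) ?_ ?_ ?_
    · intro n
      have h1 := isOpenEmbedding_mapHead (jj c n) (jj_injective c n) (continuous_jj c n) (isOpen_range_jj c n)
      refine IsOpenEmbedding.of_continuous_injective_isOpenMap ?_ ?_ ?_
      · exact h1.continuous.subtype_mk _
      · intro x x' h
        exact h1.injective (congrArg Subtype.val h)
      · intro U hU
        rw [hYo.isOpenEmbedding_subtypeVal.isOpen_iff_image_isOpen, Set.image_image]
        exact h1.isOpenMap U hU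
    · intro m n hmn
      rw [Set.disjoint_left]
      rintro z ⟨x, rfl⟩ ⟨x', hx'⟩
      have hx' : mapHead (jj c n) (jj_injective c n) x' = mapHead (jj c m) (jj_injective c m) x :=
        congrArg Subtype.val hx'
      obtain ⟨e, he⟩ := (mem_range_mapHead_iff _ _ _).1 ⟨x, rfl⟩
      obtain ⟨e', he'⟩ := (mem_range_mapHead_iff _ _ _).1 ⟨x', rfl⟩
      rw [hx', he] at he'
      have h1 : jj c m e = jj c n e' := Sum.inl.inj he'
      exact Set.disjoint_left.1 (jj_disjoint c hmn) ⟨e, rfl⟩ ⟨e', h1.symm⟩
    · rintro ⟨z, hz⟩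
      constructor
      · intro hne
        have hne : z ≠ single c := fun h => hne (Subtype.ext h)
        obtain ⟨d, hd⟩ := z.2.1
        by_cases hdc : d = c
        · subst hdc
          exfalso
          apply hz
          rw [mem_range_cons_iff]
          rcases h : z.1 [d] with c' | u
          · exact ⟨c', rfl⟩
          · exact absurd (eq_single_of hd h) hne
        · obtain ⟨n, e, he⟩ := exists_jj c d hdc
          obtain ⟨x, hx⟩ := (mem_range_mapHead_iff (jj c n) (jj_injective c n) z).2 ⟨e, by rw [he]; exact hd⟩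
          exact ⟨n, x, Subtype.ext hx⟩
      · rintro ⟨n, x, hx⟩ h
        have hx : mapHead (jj c n) (jj_injective c n) x = z := congrArg Subtype.val hx
        have h : z = single c := congrArg Subtype.val h
        obtain ⟨e, he⟩ := (mem_range_mapHead_iff _ _ _).1 ⟨x, rfl⟩
        rw [hx, h] at he
        have h1 : c = jj c n e := Sum.inl.inj he
        have h2 := ((mem_range_jj_iff c n (jj c n e)).1 ⟨e, rfl⟩).2
        exact h2 (by rw [← h1])
  obtain ⟨φ, -⟩ := (PP_single c).homeo hP
  refine ⟨fun x => (φ x).1, hYo.isOpenEmbedding_subtypeVal.comp φ.isOpenEmbedding, ?_⟩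
  ext x
  constructor
  · rintro ⟨y, rfl⟩
    exact (φ y).2
  · intro hx
    exact ⟨φ.symm ⟨x, hx⟩, by simp⟩

lemma PP_cons (c : Cn) {x : XX} (h : PP XX x) : PP XX (cons c x) := by
  obtain ⟨E, hE, hEr⟩ := exists_EE c
  obtain ⟨F, hF, hFr⟩ := h
  have hFn : ∀ n : ℕ, IsOpenEmbedding fun y : XX => F (n, y) := by
    intro n
    refine IsOpenEmbedding.of_continuous_injective_isOpenMap ?_ ?_ ?_
    · exact hF.continuous.comp (Continuous.prodMk_right n)
    · intro y y' hy
      have := hF.injective hy
      exact (Prod.mk.inj this).2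
    · intro U hU
      have : (fun y : XX => F (n, y)) '' U = F '' ({n} ×ˢ U) := by
        ext z
        constructor
        · rintro ⟨y, hy, rfl⟩
          exact ⟨(n, y), ⟨rfl, hy⟩, rfl⟩
        · rintro ⟨⟨m, y⟩, ⟨hm, hy⟩, rfl⟩
          have hm : m = n := hm
          subst hm
          exact ⟨y, hy, rfl⟩
      rw [this]
      exact hF.isOpenMap _ ((isOpen_discrete _).prod hU)
  refine mkPP (cons c x) (fun n => match n with
    | 0 => E
    | n + 1 => fun y => cons c (F (n, y))) ?_ ?_ ?_
  · intro n
    cases n with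
    | zero => exact hE
    | succ n => exact (isOpenEmbedding_cons c).comp (hFn n)
  · intro m n hmn
    cases n with
    | zero => omega
    | succ n =>
      cases m with
      | zero =>
        rw [Set.disjoint_left]
        intro z hz hz'
        have hz : z ∈ range E := hz
        rw [hEr] at hz
        obtain ⟨y, rfl⟩ := hz'
        exact hz ⟨_, rfl⟩
      | succ m =>
        rw [Set.disjoint_left]
        rintro z ⟨y, rfl⟩ ⟨y', hy'⟩
        have h1 := hF.injective (cons_injective c hy')
        have h2 := (Prod.mk.inj h1).1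
        omega
  · intro z
    constructor
    · intro hz
      by_cases hzc : z ∈ range (cons c)
      · obtain ⟨y, rfl⟩ := hzc
        have hyx : y ∈ range F := by
          rw [hFr]
          intro hyx
          rw [Set.mem_singleton_iff] at hyx
          exact hz (by rw [hyx])
        obtain ⟨⟨n, y'⟩, rfl⟩ := hyx
        exact ⟨n + 1, y', rfl⟩
      · refine ⟨0, ?_⟩
        change z ∈ range E
        rw [hEr]
        exact hzc
    · rintro ⟨n, hn⟩ rfl
      cases n with
      | zero =>
        have hn : cons c x ∈ range E := hn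
        rw [hEr] at hn
        exact hn ⟨x, rfl⟩
      | succ n =>
        obtain ⟨y, hy⟩ := hn
        have h1 := cons_injective c hy
        have h2 : x ∈ range F := ⟨_, h1⟩
        rw [hFr] at h2
        exact h2 rfl

/-- Adding finitely many new entries in front. -/
noncomputable def consList : List Cn → XX → XX
  | [], x => x
  | c :: u, x => cons c (consList u x)

lemma consList_snoc (u : List Cn) (c : Cn) (x : XX) : consList (u ++ [c]) x = consList u (cons c x) := by
  induction u with
  | nil => rfl
  | cons d u ih => simp only [List.cons_append, consList, ih]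

lemma consList_apply (u : List Cn) (x y : XX) (s : List Cn) (hs : s.length < u.length) :
    (consList u x).1 s = (consList u y).1 s := by
  induction u generalizing s with
  | nil => simp at hs
  | cons c u ih =>
    cases s with
    | nil => rfl
    | cons d s =>
      by_cases hd : d = c
      · subst hd
        simp only [consList]
        rw [cons_cons_self, cons_cons_self]
        exact ih s (by simpa using hs)
      · simp only [consList]
        rw [cons_cons_ne hd, cons_cons_ne hd]

lemma isOpenEmbedding_consList (u : List Cn) : IsOpenEmbedding (consList u) := by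
  induction u with
  | nil => exact IsOpenEmbedding.id
  | cons c u ih => exact (isOpenEmbedding_cons c).comp ih

/-- Finite sequences. -/
inductive FinX : XX → Prop
  | single (c : Cn) : FinX (single c)
  | cons (c : Cn) (x : XX) (h : FinX x) : FinX (cons c x)

lemma PP_of_not_fin {x : XX} (hx : ¬ FinX x) : PP XX x := by
  classical
  have hstep : ∀ y : {y : XX // ¬ FinX y}, ∃ p : Cn × {y : XX // ¬ FinX y}, y.1 = cons p.1 p.2.1 := by
    rintro ⟨y, hy⟩
    rcases single_or_cons y with ⟨c, rfl⟩ | ⟨c, z, rfl⟩
    · exact absurd (FinX.single c) hy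
    · exact ⟨(c, ⟨z, fun hz => hy (FinX.cons c z hz)⟩), rfl⟩
  choose g hg using hstep
  obtain ⟨sq, sq0, sqs⟩ : ∃ sq : ℕ → {y : XX // ¬ FinX y}, (sq 0).1 = x ∧
      ∀ n, (sq n).1 = cons (g (sq n)).1 (sq (n + 1)).1 :=
    ⟨fun n => Nat.rec ⟨x, hx⟩ (fun _ y => (g y).2) n, rfl, fun n => hg _⟩
  obtain ⟨L, L0, Ls⟩ : ∃ L : ℕ → List Cn, L 0 = [] ∧ ∀ n, L (n + 1) = L n ++ [(g (sq n)).1] :=
    ⟨fun n => Nat.rec [] (fun n l => l ++ [(g (sq n)).1]) n, rfl, fun n => rfl⟩
  have Llen : ∀ n, (L n).length = n := by
    intro n
    induction n with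
    | zero => rw [L0]; rfl
    | succ n ih => rw [Ls, List.length_append, ih]; rfl
  have hLx : ∀ n, consList (L n) (sq n).1 = x := by
    intro n
    induction n with
    | zero => rw [L0, ← sq0]; rfl
    | succ n ih => rw [Ls, consList_snoc, ← sqs, ih]
  have hanti : ∀ n, range (consList (L (n + 1))) ⊆ range (consList (L n)) := by
    rintro n _ ⟨y, rfl⟩
    rw [Ls, consList_snoc]
    exact ⟨_, rfl⟩
  have hanti' : ∀ m n, m ≤ n → range (consList (L n)) ⊆ range (consList (L m)) := by
    intro m n hmn
    induction hmn with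
    | refl => exact subset_rfl
    | step _ ih => exact (hanti _).trans ih
  choose E hE hEr using exists_EE
  refine mkPP x (fun n y => consList (L n) (E (g (sq n)).1 y)) ?_ ?_ ?_
  · intro n
    exact (isOpenEmbedding_consList (L n)).comp (hE _)
  · intro m n hmn
    rw [Set.disjoint_left]
    rintro z ⟨y, rfl⟩ ⟨y', hy'⟩
    have h1 : consList (L m) (E (g (sq m)).1 y) ∈ range (consList (L (m + 1))) := by
      apply hanti' (m + 1) n hmn
      exact ⟨_, hy'⟩
    obtain ⟨y'', hy''⟩ := h1
    rw [Ls, consList_snoc] at hy''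
    have h2 := (isOpenEmbedding_consList (L m)).injective hy''
    have h3 : E (g (sq m)).1 y ∈ range (E (g (sq m)).1) := ⟨y, rfl⟩
    rw [hEr] at h3
    exact h3 ⟨y'', h2⟩
  · intro z
    constructor
    · intro hz
      have h1 : ∃ n, z ∉ range (consList (L n)) := by
        by_contra hcon
        push Not at hcon
        apply hz
        apply Subtype.ext
        funext s
        obtain ⟨y, rfl⟩ := hcon (s.length + 1)
        have h2 := consList_apply (L (s.length + 1)) y (sq (s.length + 1)).1 s (by rw [Llen]; omega)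
        rw [h2, hLx]
      have h2 := Nat.find_spec h1
      have h0 : Nat.find h1 ≠ 0 := by
        intro h0
        rw [h0, L0] at h2
        exact h2 ⟨z, rfl⟩
      obtain ⟨n, hn⟩ := Nat.exists_eq_succ_of_ne_zero h0
      have h3 := Nat.find_min h1 (m := n) (by omega)
      rw [not_not] at h3
      rw [hn] at h2
      obtain ⟨y, rfl⟩ := h3
      refine ⟨n, ?_⟩
      have h4 : y ∈ range (E (g (sq n)).1) := by
        rw [hEr]
        rintro ⟨y', rfl⟩
        apply h2
        exact ⟨y', by rw [Nat.succ_eq_add_one, Ls, consList_snoc]⟩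
      obtain ⟨y', rfl⟩ := h4
      exact ⟨y', rfl⟩
    · rintro ⟨n, y, hy⟩ rfl
      have hy : consList (L n) (E (g (sq n)).1 y) = z := hy
      rw [← hLx n] at hy
      have h1 := (isOpenEmbedding_consList (L n)).injective hy
      have h2 : E (g (sq n)).1 y ∈ range (E (g (sq n)).1) := ⟨y, rfl⟩
      rw [hEr, h1, sqs n] at h2
      exact h2 ⟨_, rfl⟩

lemma PP_all (x : XX) : PP XX x := by
  by_cases h : FinX x
  · induction h with
    | single c => exact PP_single c
    | cons c x _ ih => exact PP_cons c ih
  · exact PP_of_not_fin h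

theorem XX_homogeneous (x y : XX) : ∃ φ : XX ≃ₜ XX, φ x = y := (PP_all x).homeo (PP_all y)

theorem exists_nest (x : XX) : ∃ W : ℕ → Set XX, Nest W x := by
  obtain ⟨F, hF, hFr⟩ := PP_all x
  have hcomp : ∀ n, IsCompact (F '' {p | p.1 < n}) := by
    intro n
    apply IsCompact.image _ hF.continuous
    have : {p : ℕ × XX | p.1 < n} = Set.Iio n ×ˢ Set.univ := by
      ext p; simp
    rw [this]
    exact (Set.finite_Iio n).isCompact.prod isCompact_univ
  have hopen : ∀ n, IsOpen (F '' {p | p.1 < n}) := by
    intro n
    apply hF.isOpenMap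
    exact (isOpen_discrete (Set.Iio n)).preimage continuous_fst
  refine ⟨fun n => (F '' {p | p.1 < n})ᶜ, ?_, ?_, ?_, ?_, ?_⟩
  · intro n
    exact ⟨(hopen n).isClosed_compl, (hcomp n).isClosed.isOpen_compl⟩
  · intro m n hmn
    apply Set.compl_subset_compl.2
    apply Set.image_mono
    intro p hp
    exact lt_of_lt_of_le hp hmn
  · rintro p ⟨q, hq, _⟩
    exact absurd hq (Nat.not_lt_zero _)
  · intro p hp
    by_contra hne
    have h1 : p ∈ range F := by rw [hFr]; exact hne
    obtain ⟨q, rfl⟩ := h1
    exact hp (q.1 + 1) ⟨q, Nat.lt_succ_self _, rfl⟩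
  · rintro n ⟨q, _, hq⟩
    have h1 : F q ∈ range F := ⟨q, rfl⟩
    rw [hFr] at h1
    exact h1 hq

lemma XX_unique {x : XX} : ∀ (s s' : List Cn) (c c' : Cn), s.length = s'.length → x.1 s = Sum.inl c →
    x.1 s' = Sum.inl c' → s = s' := by
  intro s
  induction s using List.reverseRecOn with
  | nil =>
    intro s' c c' hl _ _
    exact (List.eq_nil_of_length_eq_zero (by simpa using hl.symm)).symm
  | append_singleton t d ih =>
    intro s' c c' hl h h'
    rcases List.eq_nil_or_concat' s' with rfl | ⟨t', d', rfl⟩
    · simp at hl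
    · have h1 : x.1 t = Sum.inl d := by
        rcases x.2.2 t d [] with h2 | h2
        · rw [h] at h2; cases h2
        · exact h2
      have h2 : x.1 t' = Sum.inl d' := by
        rcases x.2.2 t' d' [] with h2 | h2
        · rw [h'] at h2; cases h2
        · exact h2
      have h3 : t = t' := ih t' d d' (by simpa using hl) h1 h2
      subst h3
      rw [h1] at h2
      rw [Sum.inl.inj h2]

open Classical in
/-- A coding of the points of `XX` by sequences. -/
noncomputable def Psi (x : XX) (n : ℕ) : Option (List Cn × Cn) :=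
  if h : ∃ p : List Cn × Cn, p.1.length = n ∧ x.1 p.1 = Sum.inl p.2 then some h.choose else none

lemma Psi_eq {x : XX} {s : List Cn} {c : Cn} (h : x.1 s = Sum.inl c) : Psi x s.length = some (s, c) := by
  have hex : ∃ p : List Cn × Cn, p.1.length = s.length ∧ x.1 p.1 = Sum.inl p.2 := ⟨(s, c), rfl, h⟩
  unfold Psi
  rw [dif_pos hex]
  have h1 := hex.choose_spec
  have h2 : hex.choose.1 = s := XX_unique _ _ _ _ h1.1 h1.2 h
  have h3 : hex.choose.2 = c := by
    have := h1.2
    rw [h2, h] at this
    exact (Sum.inl.inj this).symm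
  congr 1
  exact Prod.ext h2 h3

lemma Psi_spec {x : XX} {n : ℕ} {p : List Cn × Cn} (h : Psi x n = some p) : x.1 p.1 = Sum.inl p.2 := by
  unfold Psi at h
  split_ifs at h with hex
  have := Option.some.inj h
  rw [← this]
  exact hex.choose_spec.2

lemma Psi_injective : Function.Injective Psi := by
  intro x y h
  apply Subtype.ext
  funext s
  rcases hx : x.1 s with c | u
  · have h1 := Psi_eq hx
    rw [h] at h1
    exact (Psi_spec h1).symm
  · rcases hy : y.1 s with c | v
    · have h1 := Psi_eq hy
      rw [← h] at h1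
      have := Psi_spec h1
      rw [hx] at this
      cases this
    · rfl

theorem card_XX_le : #XX ≤ 𝔠 := by
  refine (Cardinal.mk_le_of_injective Psi_injective).trans ?_
  have h1 : #Cn = 𝔠 := by
    simp [Cn]
  have h2 : #(List Cn) = 𝔠 := by
    rw [Cardinal.mk_list_eq_mk, h1]
  have h3 : #(Option (List Cn × Cn)) = 𝔠 := by
    rw [Cardinal.mk_option, Cardinal.mk_prod, Cardinal.lift_id, Cardinal.lift_id, h1, h2,
      Cardinal.continuum_mul_self, Cardinal.add_one_eq Cardinal.aleph0_le_continuum]
  rw [← Cardinal.power_def, h3, Cardinal.mk_nat]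
  simp

/-- The open sets witnessing the failure of the countable chain condition. -/
lemma cons_disjoint {c d : Cn} (h : c ≠ d) : Disjoint (range (cons c)) (range (cons d)) := by
  rw [Set.disjoint_left]
  rintro _ ⟨x, rfl⟩ ⟨y, hy⟩
  have h1 : (cons d y).1 [] = (cons c x).1 [] := by rw [hy]
  exact h (Sum.inl.inj h1).symm

end Pool.Agent.Lib.MP_3a0f08_gt
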