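import Pool.Agent.Lib.MP_3a0f08_gt.Twist
import Pool.Agent.Lib.MP_3a0f08_gt.Card

set_option autoImplicit false

open Matrix Topology Cardinal

namespace Pool.Agent.Lib.MP_3a0f08_gt

/-- The vector part of a point of `X × ZZ R`. -/
def vecX (X R : Type) [CommRing R] : X × ZZ R → Fin 2 → R := fun p => p.2.1

section

variable {R : Type} [CommRing R]

lemma dot_eq_entry (V c U : SL R) : (fun j => V.1 1 j) ⬝ᵥ (c.1 *ᵥ (fun i => U.1 i 0)) = (V * c * U).1 1 0 := by
  simp only [Matrix.SpecialLinearGroup.coe_mul, Matrix.mul_apply, dotProduct, Matrix.mulVec, Fin.sum_univ_two]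
  ring

lemma entry_lo_mul (x y : R) (c : SL R) : (lo (-x) * c * lo y).1 1 0 = pair c x y := by
  simp only [Matrix.SpecialLinearGroup.coe_mul, Matrix.mul_apply, Fin.sum_univ_two, lo_coe, pair]
  simp
  ring

lemma col_ne_zero [Nontrivial R] (U : SL R) : (fun i => U.1 i 0) ≠ 0 := by
  intro h
  have h0 := congrFun h 0
  have h1 := congrFun h 1
  simp only [Pi.zero_apply] at h0 h1
  have hdet : U.1 0 0 * U.1 1 1 - U.1 0 1 * U.1 1 0 = 1 := by
    rw [← Matrix.det_fin_two]; exact U.2
  rw [h0, h1] at hdet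
  simp at hdet

lemma row_ne_zero [Nontrivial R] (V : SL R) : (fun j => V.1 1 j) ≠ 0 := by
  intro h
  have h0 := congrFun h 0
  have h1 := congrFun h 1
  simp only [Pi.zero_apply] at h0 h1
  have hdet : V.1 0 0 * V.1 1 1 - V.1 0 1 * V.1 1 0 = 1 := by
    rw [← Matrix.det_fin_two]; exact V.2
  rw [h0, h1] at hdet
  simp at hdet

lemma inj_even {l l' : Option ℕ} (h : l.map (fun n => 2 * n) = l'.map (fun n => 2 * n)) : l = l' := by
  cases l <;> cases l' <;> simp_all

lemma inj_odd {l l' : Option ℕ} (h : l.map (fun n => 2 * n + 1) = l'.map (fun n => 2 * n + 1)) : l = l' := by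
  cases l <;> cases l' <;> simp_all

lemma even_ne_odd {l l' : Option ℕ} (h : ¬ (l = none ∧ l' = none)) :
    l.map (fun n => 2 * n) ≠ l'.map (fun n => 2 * n + 1) := by
  cases l <;> cases l' <;> simp_all
  omega

lemma conj_ne {c d : SL R} (h1 : c ≠ 1) (h2 : c ≠ -1) : d⁻¹ * c * d ≠ 1 ∧ d⁻¹ * c * d ≠ -1 := by
  constructor
  · intro h
    apply h1
    have : c = d * (d⁻¹ * c * d) * d⁻¹ := by group
    rw [this, h]; group
  · intro h
    apply h2
    have : c = d * (d⁻¹ * c * d) * d⁻¹ := by group
    rw [this, h]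
    ext i j
    have : d * -1 * d⁻¹ = -1 := by
      rw [mul_neg, neg_mul, mul_one, mul_inv_cancel]
    rw [this]

end

section step

variable {R : Type} [CommRing R] [IsDomain R] [TopologicalSpace R] [IsTopologicalRing R] [CompactSpace R]
  [T2Space R] {X : Type} [TopologicalSpace X] [CompactSpace X] [T2Space X]

theorem step {W : ℕ → Set X} {x₀ : X} {I : ℕ → Ideal R} (NW : Nest W x₀) (NI : INest I) {π : R}
    (hπ0 : π ≠ 0) (hπ : ∀ n, π ^ n ∈ I n) (hR : ℵ₀ < #R)
    (H : Subgroup (Coc R (vecX X R))) (hfree : ∀ g ∈ H, ∀ p, g.e p = p → g = 1)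
    (hns : ∀ g ∈ H, g ≠ 1 → ∀ p, g.ψ p ≠ 1 ∧ g.ψ p ≠ -1)
    (k : Subring R) (hk : #k < #R) (hent : ∀ g ∈ H, ∀ p, EntriesIn k (g.ψ p))
    (x₁ : X) (z₁ : ZZ R) (φ : X ≃ₜ X) (hφ : φ x₀ = x₁)
    (hnp : ∀ g ∈ H, g.e (x₀, z₀ R) ≠ (x₁, z₁)) :
    ∃ h : Coc R (vecX X R), h.e (x₀, z₀ R) = (x₁, z₁) ∧ (Set.range h.ψ).Countable ∧
      (∀ x ∈ Subgroup.closure ((H : Set (Coc R (vecX X R))) ∪ {h}), ∀ p, x.e p = p → x = 1) ∧
      (∀ x ∈ Subgroup.closure ((H : Set (Coc R (vecX X R))) ∪ {h}), x ≠ 1 → ∀ p, x.ψ p ≠ 1 ∧ x.ψ p ≠ -1) := by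
  classical
  obtain ⟨_, B, rfl⟩ := z₁
  -- the coefficient ring
  set A₀ : Subring R := Subring.closure ((k : Set R) ∪ Set.range (fun ij : Fin 2 × Fin 2 => B.1 ij.1 ij.2)) with hA₀
  have hkA₀ : k ≤ A₀ := fun x hx => Subring.subset_closure (Or.inl hx)
  have hBA₀ : EntriesIn A₀ B := fun i j => Subring.subset_closure (Or.inr ⟨(i, j), rfl⟩)
  have hcA₀ : #A₀ < #R := by
    refine (card_closure_le _).trans_lt (max_lt ?_ hR)
    refine (Cardinal.mk_union_le _ _).trans_lt (Cardinal.add_lt_of_lt hR.le hk ?_)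
    exact (Set.countable_range _).le_aleph0.trans_lt hR
  have hS : #(Set.range fun x : R => π * x) = #R :=
    Cardinal.mk_range_eq _ (mul_right_injective₀ hπ0)
  obtain ⟨τ, ⟨s, hs⟩, hτ⟩ := exists_gen A₀ hcA₀ hR _ hS
  have hs : π * s = τ := hs
  set A : Subring R := Subring.closure ((A₀ : Set R) ∪ {τ}) with hA
  have hA₀A : A₀ ≤ A := fun x hx => Subring.subset_closure (Or.inl hx)
  have hτA : τ ∈ A := Subring.subset_closure (Or.inr rfl)
  have hcA : #A < #R := by
    refine (card_closure_le _).trans_lt (max_lt ?_ hR)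
    refine (Cardinal.mk_union_le _ _).trans_lt (Cardinal.add_lt_of_lt hR.le hcA₀ ?_)
    exact (Set.countable_singleton _).le_aleph0.trans_lt hR
  obtain ⟨t, -, ht⟩ := exists_gen A hcA hR Set.univ Cardinal.mk_univ
  have hτI : ∀ m, gam τ (some m) ∈ I (m + 1) := by
    intro m
    change τ ^ (m + 1) ∈ I (m + 1)
    rw [← hs, mul_pow]
    exact (I (m + 1)).mul_mem_right _ (hπ _)
  -- the parameters
  set α : Option ℕ → R := fun l => gam τ (l.map fun n => 2 * n) with hα
  set β : Option ℕ → R := fun l => gam τ (l.map fun n => 2 * n + 1) with hβ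
  have hαA : ∀ l, α l ∈ A := fun l => gam_mem hτA _
  have hβA : ∀ l, β l ∈ A := fun l => gam_mem hτA _
  have hα0 : α none = 0 := rfl
  have hβ0 : β none = 0 := rfl
  have hαI : ∀ n, α (some n) ∈ I (n + 1) := fun n => NI.anti (by omega) (hτI (2 * n))
  have hβI : ∀ n, β (some n) ∈ I (n + 1) := fun n => NI.anti (by omega) (hτI (2 * n + 1))
  set κ : Option ℕ → SL R := fun l => (up t)⁻¹ * lo (α l) * up t * lo (-β l) with hκ
  have hκ0 : κ none = 1 := by
    simp only [hκ, hα0, hβ0, neg_zero, lo_zero]
    group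
  have hκT : ∀ n, Triv (I (n + 1)) (κ (some n)) := fun n =>
    ((triv_lo (hαI n)).conj (up t)).mul (triv_lo ((I (n + 1)).neg_mem (hβI n)))
  have N := nest_UU (R := R) NW NI
  -- the new element
  let h : Coc R (vecX X R) :=
    { e := (twist NW NI κ hκ0 hκT).trans (Homeomorph.prodCongr φ (homeoZ (B * up t)))
      ψ := fun p => B * lo (α (lab (UU W I) p)) * up t * lo (-β (lab (UU W I) p))
      compat := by
        intro p
        have h1 : B * lo (α (lab (UU W I) p)) * up t * lo (-β (lab (UU W I) p)) =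
            (B * up t) * κ (lab (UU W I) p) := by
          simp only [hκ]; group
        have h2 : vecX X R (((twist NW NI κ hκ0 hκT).trans (Homeomorph.prodCongr φ (homeoZ (B * up t)))) p) =
            (actZ (B * up t) (actZ (κ (lab (UU W I) p)) p.2)).1 := rfl
        rw [h1, h2, ← actZ_mul]
        rfl }
  have hlabp : ∀ a : X × ZZ R, lab (UU W I) a = none → a = (x₀, z₀ R) := fun a => (N.lab_none_iff a).1
  have hhp : h.e (x₀, z₀ R) = (x₁, ⟨B.1 *ᵥ e₁ R, B, rfl⟩) := by
    have h1 : lab (UU W I) (x₀, z₀ R) = none := (N.lab_none_iff _).2 rfl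
    have h2 : h.e (x₀, z₀ R) = (φ x₀, actZ (B * up t) (actZ (κ (lab (UU W I) (x₀, z₀ R))) (z₀ R))) := rfl
    rw [h2, h1, hκ0, hφ, actZ_one]
    refine Prod.ext rfl ?_
    apply Subtype.ext
    change (B * up t).1 *ᵥ e₁ R = B.1 *ᵥ e₁ R
    rw [Matrix.SpecialLinearGroup.coe_mul, ← Matrix.mulVec_mulVec]
    congr 1
    funext i
    fin_cases i <;> simp [up_coe, e₁, Matrix.mulVec, dotProduct, Fin.sum_univ_two]
  let ξ : Bool → X × ZZ R → Fin 2 → R := fun e a =>
    if e then (fun i => (B * lo (α (lab (UU W I) a))).1 i 0) else (fun i => (lo (β (lab (UU W I) a))).1 i 0)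
  let η : Bool → X × ZZ R → Fin 2 → R := fun e a =>
    if e then (fun j => (lo (-β (lab (UU W I) a))).1 1 j) else (fun j => (lo (-α (lab (UU W I) a)) * B⁻¹).1 1 j)
  have D : Data A t H h ξ η :=
    { free := hfree
      nonsc := hns
      ent := fun g hg p => (hent g hg p).mono (hkA₀.trans hA₀A)
      gen := ht
      vecne := fun p => ZZ_ne_zero p.2
      letter := by
        intro e q
        cases e with
        | true =>
          have h1 := lead_letter A t 1 (Or.inl rfl) (U := B * lo (α (lab (UU W I) q)))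
            (V := lo (-β (lab (UU W I) q))) ((hBA₀.mono hA₀A).mul (EntriesIn.lo (hαA _)))
            (EntriesIn.lo (A.neg_mem (hβA _)))
          rw [one_mul] at h1
          exact h1
        | false =>
          have h1 := lead_letter A t (-1) (Or.inr rfl) (U := lo (β (lab (UU W I) (h.e.symm q))))
            (V := lo (-α (lab (UU W I) (h.e.symm q))) * B⁻¹) (EntriesIn.lo (hβA _))
            ((EntriesIn.lo (A.neg_mem (hαA _))).mul (hBA₀.mono hA₀A).inv)
          have h2 : (hp h false).ψ q = lo (β (lab (UU W I) (h.e.symm q))) * up (-1 * t) *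
              (lo (-α (lab (UU W I) (h.e.symm q))) * B⁻¹) := by
            have h3 : (hp h false).ψ q = (B * lo (α (lab (UU W I) (h.e.symm q))) * up t *
              lo (-β (lab (UU W I) (h.e.symm q))))⁻¹ := rfl
            rw [h3, _root_.mul_inv_rev, _root_.mul_inv_rev, _root_.mul_inv_rev, lo_inv, lo_inv, up_inv, neg_neg, neg_one_mul]
            simp only [mul_assoc]
          rw [h2]
          exact h1
      ξne := by
        intro e a
        cases e
        · exact col_ne_zero _
        · exact col_ne_zero _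
      ηne := by
        intro e a
        cases e
        · exact row_ne_zero _
        · exact row_ne_zero _
      adj := by
        intro e e' a a' g hg hst hne
        have hcA : ∀ q, EntriesIn A₀ (g.ψ q) := fun q => (hent g hg q).mono hkA₀
        cases e with
        | true =>
          cases e' with
          | true =>
            -- a = g (h a')
            have hst : a = g.e (h.e a') := hst
            have h1 := dot_eq_entry (lo (-β (lab (UU W I) a))) (g.ψ (h.e a')) (B * lo (α (lab (UU W I) a')))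
            change (fun j => (lo (-β (lab (UU W I) a))).1 1 j) ⬝ᵥ ((g.ψ (h.e a')).1 *ᵥ
              (fun i => (B * lo (α (lab (UU W I) a'))).1 i 0)) ≠ 0
            rw [h1, ← mul_assoc, mul_assoc (lo (-β (lab (UU W I) a))), entry_lo_mul]
            refine pair_ne_zero hτ ((hcA _).mul hBA₀) (Or.inl ?_)
            refine (even_ne_odd ?_).symm
            rintro ⟨ha', ha⟩
            rw [hlabp a ha, hlabp a' ha', hhp] at hst
            apply hnp g⁻¹ (H.inv_mem hg)
            rw [hst, ← Coc.mul_e, inv_mul_cancel, Coc.one_e]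
          | false =>
            have hst : a = g.e a' := hst
            have hg1 : g ≠ 1 := hne (by simp)
            have h1 := dot_eq_entry (lo (-β (lab (UU W I) a))) (g.ψ a') (lo (β (lab (UU W I) a')))
            change (fun j => (lo (-β (lab (UU W I) a))).1 1 j) ⬝ᵥ ((g.ψ a').1 *ᵥ
              (fun i => (lo (β (lab (UU W I) a'))).1 i 0)) ≠ 0
            rw [h1, entry_lo_mul]
            refine pair_ne_zero hτ (hcA _) ?_
            by_cases hll : lab (UU W I) a = lab (UU W I) a'
            · right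
              refine ⟨by rw [hll], ?_, (hns g hg hg1 a').1, (hns g hg hg1 a').2⟩
              intro hnone
              rw [Option.map_eq_none_iff] at hnone
              have e1 := hlabp a hnone
              have e2 := hlabp a' (hll ▸ hnone)
              rw [e1, e2] at hst
              exact hg1 (hfree g hg _ hst.symm)
            · left
              exact fun hc => hll (inj_odd hc)
        | false =>
          cases e' with
          | true =>
            have hst : h.e a = g.e (h.e a') := hst
            have hg1 : g ≠ 1 := hne (by simp)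
            have h1 := dot_eq_entry (lo (-α (lab (UU W I) a)) * B⁻¹) (g.ψ (h.e a')) (B * lo (α (lab (UU W I) a')))
            change (fun j => (lo (-α (lab (UU W I) a)) * B⁻¹).1 1 j) ⬝ᵥ ((g.ψ (h.e a')).1 *ᵥ
              (fun i => (B * lo (α (lab (UU W I) a'))).1 i 0)) ≠ 0
            have h2 : lo (-α (lab (UU W I) a)) * B⁻¹ * g.ψ (h.e a') * (B * lo (α (lab (UU W I) a'))) =
              lo (-α (lab (UU W I) a)) * (B⁻¹ * g.ψ (h.e a') * B) * lo (α (lab (UU W I) a')) := by group
            rw [h1, h2, entry_lo_mul]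
            refine pair_ne_zero hτ ((hBA₀.inv.mul (hcA _)).mul hBA₀) ?_
            by_cases hll : lab (UU W I) a = lab (UU W I) a'
            · right
              have h3 := conj_ne (d := B) (hns g hg hg1 (h.e a')).1 (hns g hg hg1 (h.e a')).2
              refine ⟨by rw [hll], ?_, h3.1, h3.2⟩
              intro hnone
              rw [Option.map_eq_none_iff] at hnone
              have e1 := hlabp a hnone
              have e2 := hlabp a' (hll ▸ hnone)
              rw [e1, e2] at hst
              exact hg1 (hfree g hg _ hst.symm)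
            · left
              exact fun hc => hll (inj_even hc)
          | false =>
            have hst : h.e a = g.e a' := hst
            have h1 := dot_eq_entry (lo (-α (lab (UU W I) a)) * B⁻¹) (g.ψ a') (lo (β (lab (UU W I) a')))
            change (fun j => (lo (-α (lab (UU W I) a)) * B⁻¹).1 1 j) ⬝ᵥ ((g.ψ a').1 *ᵥ
              (fun i => (lo (β (lab (UU W I) a'))).1 i 0)) ≠ 0
            rw [h1, mul_assoc (lo (-α (lab (UU W I) a))), entry_lo_mul]
            refine pair_ne_zero hτ (hBA₀.inv.mul (hcA _)) (Or.inl ?_)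
            refine even_ne_odd ?_
            rintro ⟨ha, ha'⟩
            rw [hlabp a ha, hlabp a' ha', hhp] at hst
            exact hnp g hg hst.symm }
  refine ⟨h, hhp, ?_, fun x hx p hxp => D.closure_free hx p hxp, fun x hx hx1 p => D.closure_nonsc hx hx1 p⟩
  have h1 : Set.range h.ψ ⊆ Set.range (fun l : Option ℕ => B * lo (α l) * up t * lo (-β l)) := by
    rintro _ ⟨p, rfl⟩
    exact ⟨lab (UU W I) p, rfl⟩
  exact (Set.countable_range _).mono h1

end step

end Pool.Agent.Lib.MP_3a0f08_gt
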