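import Pool.Agent.Lib.MP_3a0f08_gt.Nest

set_option autoImplicit false

open Matrix Topology

namespace Pool.Agent.Lib.MP_3a0f08_gt

variable {R : Type*} [CommRing R]

/-- The first basis vector. -/
def e₁ (R : Type*) [CommRing R] : Fin 2 → R := ![1, 0]

/-- The orbit of the first basis vector under `SL 2`. -/
def ZZ (R : Type*) [CommRing R] : Set (Fin 2 → R) := Set.range (fun c : SL R => c.1 *ᵥ e₁ R)

/-- The base point. -/
def z₀ (R : Type*) [CommRing R] : ZZ R := ⟨e₁ R, 1, by simp⟩

/-- The action of a matrix on the orbit. -/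
def actZ (c : SL R) (z : ZZ R) : ZZ R :=
  ⟨c.1 *ᵥ z.1, by
    obtain ⟨_, d, rfl⟩ := z
    refine ⟨c * d, ?_⟩
    change (c * d).1 *ᵥ e₁ R = c.1 *ᵥ (d.1 *ᵥ e₁ R)
    rw [Matrix.SpecialLinearGroup.coe_mul, Matrix.mulVec_mulVec]⟩

@[simp] lemma actZ_coe (c : SL R) (z : ZZ R) : (actZ c z).1 = c.1 *ᵥ z.1 := rfl

lemma actZ_mul (c d : SL R) (z : ZZ R) : actZ (c * d) z = actZ c (actZ d z) := by
  apply Subtype.ext
  change (c * d).1 *ᵥ z.1 = c.1 *ᵥ (d.1 *ᵥ z.1)
  rw [Matrix.SpecialLinearGroup.coe_mul, Matrix.mulVec_mulVec]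

lemma actZ_one (z : ZZ R) : actZ 1 z = z := by
  apply Subtype.ext
  simp

lemma ZZ_ne_zero [Nontrivial R] (z : ZZ R) : z.1 ≠ 0 := by
  obtain ⟨_, d, rfl⟩ := z
  intro h
  have h2 : (d⁻¹).1 *ᵥ (d.1 *ᵥ e₁ R) = 0 := by
    rw [show d.1 *ᵥ e₁ R = 0 from h, Matrix.mulVec_zero]
  rw [Matrix.mulVec_mulVec, ← Matrix.SpecialLinearGroup.coe_mul, inv_mul_cancel,
    Matrix.SpecialLinearGroup.coe_one, Matrix.one_mulVec] at h2
  have := congrFun h2 0
  simp [e₁] at this

section top

variable [TopologicalSpace R] [IsTopologicalRing R]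

lemma continuous_actZ (c : SL R) : Continuous (actZ c) := by
  unfold actZ
  refine Continuous.subtype_mk ?_ _
  exact Continuous.matrix_mulVec continuous_const continuous_subtype_val

/-- The action as a homeomorphism. -/
def homeoZ (c : SL R) : ZZ R ≃ₜ ZZ R where
  toFun := actZ c
  invFun := actZ c⁻¹
  left_inv z := by rw [← actZ_mul, inv_mul_cancel, actZ_one]
  right_inv z := by rw [← actZ_mul, mul_inv_cancel, actZ_one]
  continuous_toFun := continuous_actZ c
  continuous_invFun := continuous_actZ c⁻¹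

instance [T2Space R] [CompactSpace R] : CompactSpace (SL R) := by
  have h : IsClosedEmbedding ((↑) : SL R → Matrix (Fin 2) (Fin 2) R) :=
    Matrix.SpecialLinearGroup.isClosedEmbedding_val
  have : CompactSpace (Matrix (Fin 2) (Fin 2) R) := inferInstanceAs (CompactSpace (Fin 2 → Fin 2 → R))
  exact h.compactSpace

instance [T2Space R] [CompactSpace R] : CompactSpace (ZZ R) := by
  rw [← isCompact_iff_compactSpace]
  apply isCompact_range
  exact Continuous.matrix_mulVec continuous_subtype_val continuous_const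

end top

/-- A decreasing sequence of open ideals with trivial intersection. -/
structure INest [TopologicalSpace R] (I : ℕ → Ideal R) : Prop where
  isOpen : ∀ n, IsOpen (I n : Set R)
  anti : Antitone I
  zero : I 0 = ⊤
  inter : ∀ x, (∀ n, x ∈ I n) → x = 0

/-- Matrices which are trivial modulo the ideal `J`. -/
def Triv (J : Ideal R) (c : SL R) : Prop := ∀ z : ZZ R, ∀ i, (actZ c z).1 i - z.1 i ∈ J

lemma actZ_sub_mem {J : Ideal R} (c : SL R) {z z' : ZZ R} (h : ∀ i, z.1 i - z'.1 i ∈ J) :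
    ∀ i, (actZ c z).1 i - (actZ c z').1 i ∈ J := by
  intro i
  simp only [actZ_coe, Matrix.mulVec, dotProduct, Fin.sum_univ_two]
  have : c.1 i 0 * z.1 0 + c.1 i 1 * z.1 1 - (c.1 i 0 * z'.1 0 + c.1 i 1 * z'.1 1) =
      c.1 i 0 * (z.1 0 - z'.1 0) + c.1 i 1 * (z.1 1 - z'.1 1) := by ring
  rw [this]
  exact J.add_mem (J.mul_mem_left _ (h 0)) (J.mul_mem_left _ (h 1))

lemma Triv.mul {J : Ideal R} {c d : SL R} (hc : Triv J c) (hd : Triv J d) : Triv J (c * d) := by
  intro z i
  rw [actZ_mul]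
  have := J.add_mem (hc (actZ d z) i) (hd z i)
  simpa using this

lemma Triv.inv {J : Ideal R} {c : SL R} (hc : Triv J c) : Triv J c⁻¹ := by
  intro z i
  have := hc (actZ c⁻¹ z) i
  rw [← actZ_mul, mul_inv_cancel, actZ_one] at this
  have h2 := J.neg_mem this
  simpa using h2

lemma Triv.conj {J : Ideal R} {c : SL R} (hc : Triv J c) (d : SL R) : Triv J (d⁻¹ * c * d) := by
  intro z i
  have h1 := hc (actZ d z)
  have h2 := actZ_sub_mem d⁻¹ h1 i
  rw [← actZ_mul d⁻¹ d, inv_mul_cancel, actZ_one] at h2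
  rw [mul_assoc, actZ_mul, actZ_mul]
  exact h2

lemma triv_lo {J : Ideal R} {a : R} (ha : a ∈ J) : Triv J (lo a) := by
  intro z i
  simp only [actZ_coe, lo_coe]
  fin_cases i
  · simp [Matrix.mulVec, dotProduct, Fin.sum_univ_two]
  · simp [Matrix.mulVec, dotProduct, Fin.sum_univ_two]
    exact J.mul_mem_right _ ha

lemma Triv.one {J : Ideal R} : Triv J (1 : SL R) := by
  intro z i
  rw [actZ_one]; simp

section nest

variable {X : Type*} [TopologicalSpace X] [TopologicalSpace R] [IsTopologicalRing R]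

/-- The nest in `X × ZZ R` built from a nest of `X` and a sequence of ideals. -/
def UU (W : ℕ → Set X) (I : ℕ → Ideal R) (n : ℕ) : Set (X × ZZ R) :=
  {p | p.1 ∈ W n ∧ ∀ i, p.2.1 i - e₁ R i ∈ I n}

lemma nest_UU {W : ℕ → Set X} {x₀ : X} {I : ℕ → Ideal R} (NW : Nest W x₀) (NI : INest I) :
    Nest (UU W I) (x₀, z₀ R) where
  clopen n := by
    have h1 : IsClopen {p : X × ZZ R | p.1 ∈ W n} := (NW.clopen n).preimage continuous_fst
    have hI : IsClopen (I n : Set R) :=
      ⟨AddSubgroup.isClosed_of_isOpen (I n).toAddSubgroup (NI.isOpen n), NI.isOpen n⟩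
    have h2 : ∀ i, IsClopen {p : X × ZZ R | p.2.1 i - e₁ R i ∈ I n} := fun i =>
      hI.preimage (((continuous_apply i).comp (continuous_subtype_val.comp continuous_snd)).sub continuous_const)
    have h3 : UU W I n = {p : X × ZZ R | p.1 ∈ W n} ∩ ({p : X × ZZ R | p.2.1 0 - e₁ R 0 ∈ I n} ∩
        {p : X × ZZ R | p.2.1 1 - e₁ R 1 ∈ I n}) := by
      ext p
      simp [UU, Fin.forall_fin_two]
    rw [h3]
    exact h1.inter ((h2 0).inter (h2 1))
  anti := by
    intro m n hmn p hp
    exact ⟨NW.anti hmn hp.1, fun i => NI.anti hmn (hp.2 i)⟩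
  zero p := ⟨NW.zero _, fun i => by rw [NI.zero]; trivial⟩
  inter p hp := by
    have h1 : p.1 = x₀ := NW.inter _ fun n => (hp n).1
    have h2 : p.2 = z₀ R := by
      apply Subtype.ext
      funext i
      exact sub_eq_zero.1 (NI.inter _ fun n => (hp n).2 i)
    exact Prod.ext h1 h2
  mem n := ⟨NW.mem n, fun i => by simp [z₀]⟩

lemma UU_act_iff {W : ℕ → Set X} {I : ℕ → Ideal R} (NI : INest I) {m n : ℕ} (hmn : m ≤ n) {c : SL R}
    (hc : Triv (I n) c) (x : X) (z : ZZ R) : (x, actZ c z) ∈ UU W I m ↔ (x, z) ∈ UU W I m := by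
  simp only [UU, Set.mem_ofPred_eq]
  refine and_congr_right fun _ => forall_congr' fun i => ?_
  have h := NI.anti hmn (hc z i)
  constructor
  · intro h2
    have := (I m).sub_mem h2 h
    simpa using this
  · intro h2
    have := (I m).add_mem h2 h
    simpa using this

/-- The underlying map of the twist. -/
noncomputable def twistFun (W : ℕ → Set X) (I : ℕ → Ideal R) (κ : Option ℕ → SL R) (p : X × ZZ R) : X × ZZ R :=
  (p.1, actZ (κ (lab (UU W I) p)) p.2)

lemma lab_twistFun {W : ℕ → Set X} {x₀ : X} {I : ℕ → Ideal R} (NW : Nest W x₀) (NI : INest I)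
    {κ : Option ℕ → SL R} (h0 : κ none = 1) (hκ : ∀ n, Triv (I (n + 1)) (κ (some n))) (p : X × ZZ R) :
    lab (UU W I) (twistFun W I κ p) = lab (UU W I) p := by
  have N := nest_UU NW NI
  rcases hl : lab (UU W I) p with _ | n
  · have hp := (N.lab_none_iff p).1 hl
    rw [N.lab_none_iff]
    unfold twistFun
    rw [hl, h0, actZ_one]
    exact hp
  · have hp := (N.lab_some_iff p n).1 hl
    rw [N.lab_some_iff]
    unfold twistFun
    rw [hl, UU_act_iff NI (Nat.le_succ n) (hκ n), UU_act_iff NI le_rfl (hκ n)]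
    exact hp

lemma continuous_twistFun [CompactSpace X] [T2Space X] [CompactSpace R] [T2Space R]
    {W : ℕ → Set X} {x₀ : X} {I : ℕ → Ideal R} (NW : Nest W x₀) (NI : INest I)
    {κ : Option ℕ → SL R} (h0 : κ none = 1) (hκ : ∀ n, Triv (I (n + 1)) (κ (some n))) :
    Continuous (twistFun W I κ) := by
  have N := nest_UU (R := R) NW NI
  rw [continuous_iff_continuousAt]
  intro p
  rcases hl : lab (UU W I) p with _ | n
  · have hp := (N.lab_none_iff p).1 hl
    have h1 : twistFun W I κ p = p := by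
      unfold twistFun
      rw [hl, h0, actZ_one]
    unfold ContinuousAt
    rw [h1]
    intro V hV
    rw [hp] at hV ⊢
    obtain ⟨n, hn⟩ := N.exists_subset hV
    change twistFun W I κ ⁻¹' V ∈ 𝓝 _
    refine Filter.mem_of_superset ((N.clopen n).isOpen.mem_nhds (N.mem n)) ?_
    intro q hq
    apply hn
    rcases hl' : lab (UU W I) q with _ | m
    · unfold twistFun
      rw [hl', h0, actZ_one]
      exact hq
    · have hm := (N.lab_some_iff q m).1 hl'
      have hnm : n ≤ m := by
        by_contra hcon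
        exact hm.2 (N.anti (by omega) hq)
      unfold twistFun
      rw [hl', UU_act_iff NI (by omega : n ≤ m + 1) (hκ m)]
      exact hq
  · have hp := (N.lab_some_iff p n).1 hl
    have h1 : (UU W I n \ UU W I (n + 1)) ∈ 𝓝 p :=
      ((N.clopen n).isOpen.sdiff (N.clopen (n + 1)).isClosed).mem_nhds hp
    have h2 : twistFun W I κ =ᶠ[𝓝 p] fun q => (q.1, actZ (κ (some n)) q.2) := by
      filter_upwards [h1] with q hq
      unfold twistFun
      rw [(N.lab_some_iff q n).2 hq]
    refine ContinuousAt.congr ?_ h2.symm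
    exact (continuous_fst.prodMk ((continuous_actZ _).comp continuous_snd)).continuousAt

/-- The twist as a homeomorphism. -/
noncomputable def twist [CompactSpace X] [T2Space X] [CompactSpace R] [T2Space R]
    {W : ℕ → Set X} {x₀ : X} {I : ℕ → Ideal R} (NW : Nest W x₀) (NI : INest I)
    (κ : Option ℕ → SL R) (h0 : κ none = 1) (hκ : ∀ n, Triv (I (n + 1)) (κ (some n))) :
    (X × ZZ R) ≃ₜ (X × ZZ R) where
  toFun := twistFun W I κ
  invFun := twistFun W I fun l => (κ l)⁻¹
  left_inv p := by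
    have h := lab_twistFun NW NI h0 hκ p
    have h2 : twistFun W I (fun l => (κ l)⁻¹) (twistFun W I κ p) =
        ((twistFun W I κ p).1, actZ (κ (lab (UU W I) (twistFun W I κ p)))⁻¹ (twistFun W I κ p).2) := rfl
    rw [h2, h]
    simp only [twistFun]
    rw [← actZ_mul, inv_mul_cancel, actZ_one]
  right_inv p := by
    have h0' : (κ none)⁻¹ = 1 := by rw [h0, inv_one]
    have h := lab_twistFun (κ := fun l => (κ l)⁻¹) NW NI h0' (fun n => (hκ n).inv) p
    have h2 : twistFun W I κ (twistFun W I (fun l => (κ l)⁻¹) p) =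
        ((twistFun W I (fun l => (κ l)⁻¹) p).1,
          actZ (κ (lab (UU W I) (twistFun W I (fun l => (κ l)⁻¹) p))) (twistFun W I (fun l => (κ l)⁻¹) p).2) := rfl
    rw [h2, h]
    simp only [twistFun]
    rw [← actZ_mul, mul_inv_cancel, actZ_one]
  continuous_toFun := continuous_twistFun NW NI h0 hκ
  continuous_invFun := by
    have h0' : (κ none)⁻¹ = 1 := by rw [h0, inv_one]
    exact continuous_twistFun (κ := fun l => (κ l)⁻¹) NW NI h0' (fun n => (hκ n).inv)

end nest

end Pool.Agent.Lib.MP_3a0f08_gt
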